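import Mathlib

/-!
Semilinear representations of a group over a field, and their restriction to stable subspaces.
-/

namespace Pool.Agent.K6.H72.FD

noncomputable section

/-- A semilinear representation of `G` on the `k`-vector space `V`. -/
structure SRep (k : Type) [Field k] (G : Type) [Group G] (V : Type) [AddCommGroup V]
    [Module k V] where
  s : G →* RingAut k
  ρ : G →* AddMonoid.End V
  semi : ∀ g (c : k) (v : V), ρ g (c • v) = s g c • ρ g v

variable {k : Type} [Field k] {G : Type} [Group G] {V : Type} [AddCommGroup V] [Module k V]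

namespace SRep

variable (R : SRep k G V)

theorem ρ_mul_apply (g h : G) (v : V) : R.ρ (g * h) v = R.ρ g (R.ρ h v) := by
  rw [map_mul]; rfl

theorem ρ_one_apply (v : V) : R.ρ 1 v = v := by
  rw [map_one]; rfl

theorem ρ_inv_apply (g : G) (v : V) : R.ρ g⁻¹ (R.ρ g v) = v := by
  rw [← ρ_mul_apply, inv_mul_cancel, ρ_one_apply]

theorem ρ_apply_inv (g : G) (v : V) : R.ρ g (R.ρ g⁻¹ v) = v := by
  rw [← ρ_mul_apply, mul_inv_cancel, ρ_one_apply]

theorem s_mul_apply (g h : G) (c : k) : R.s (g * h) c = R.s g (R.s h c) := by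
  rw [map_mul]; rfl

theorem s_one_apply (c : k) : R.s 1 c = c := by
  rw [map_one]; rfl

theorem s_inv_apply (g : G) (c : k) : R.s g⁻¹ (R.s g c) = c := by
  rw [← s_mul_apply, inv_mul_cancel, s_one_apply]

theorem s_apply_inv (g : G) (c : k) : R.s g (R.s g⁻¹ c) = c := by
  rw [← s_mul_apply, mul_inv_cancel, s_one_apply]

/-- Finiteness, continuity and algebraicity conditions. -/
structure Good : Prop where
  fin : (R.s.ker : Set G).Finite
  cont : ∀ T : Finset V, ∃ S : Finset k, ∀ g, (∀ c ∈ S, R.s g c = c) →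
    ∃ κ, R.s κ = 1 ∧ ∀ v ∈ T, R.ρ g v = R.ρ κ v
  alg : ∀ c : k, (Set.range fun g => R.s g c).Finite

/-- A subgroup is open when it contains the pointwise stabiliser of finite sets. -/
def Open (H : Subgroup G) : Prop :=
  ∃ (T : Finset V) (S : Finset k), ∀ g, (∀ v ∈ T, R.ρ g v = v) → (∀ c ∈ S, R.s g c = c) → g ∈ H

theorem open_mono {H H' : Subgroup G} (h : R.Open H) (hle : H ≤ H') : R.Open H' := by
  obtain ⟨T, S, h⟩ := h
  exact ⟨T, S, fun g h1 h2 => hle (h g h1 h2)⟩

theorem open_top : R.Open ⊤ := ⟨∅, ∅, fun _ _ _ => Subgroup.mem_top _⟩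

theorem open_inf {H H' : Subgroup G} (h : R.Open H) (h' : R.Open H') : R.Open (H ⊓ H') := by
  classical
  obtain ⟨T, S, h⟩ := h
  obtain ⟨T', S', h'⟩ := h'
  refine ⟨T ∪ T', S ∪ S', fun g h1 h2 => ⟨h g ?_ ?_, h' g ?_ ?_⟩⟩
  · exact fun v hv => h1 v (Finset.mem_union_left _ hv)
  · exact fun v hv => h2 v (Finset.mem_union_left _ hv)
  · exact fun v hv => h1 v (Finset.mem_union_right _ hv)
  · exact fun v hv => h2 v (Finset.mem_union_right _ hv)

/-- `W` is stable under `H`. -/
def Stable (H : Subgroup G) (W : Submodule k V) : Prop := ∀ h ∈ H, ∀ w ∈ W, R.ρ h w ∈ W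

variable {R} in
/-- Restriction of a semilinear representation to a subgroup and a stable subspace. -/
def restr {H : Subgroup G} {W : Submodule k V} (hW : R.Stable H W) : SRep k H W where
  s := R.s.comp H.subtype
  ρ :=
    { toFun := fun h =>
        { toFun := fun w => ⟨R.ρ h w, hW h h.2 w w.2⟩
          map_zero' := by ext; simp
          map_add' := fun w w' => by ext; simp }
      map_one' := by ext w; exact R.ρ_one_apply _
      map_mul' := fun a b => by ext w; exact R.ρ_mul_apply _ _ _ }
  semi := fun g c v => by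
    ext
    exact R.semi g c v

variable {R}

@[simp] theorem restr_s {H : Subgroup G} {W : Submodule k V} (hW : R.Stable H W) (h : H) :
    (restr hW).s h = R.s h := rfl

@[simp] theorem restr_ρ {H : Subgroup G} {W : Submodule k V} (hW : R.Stable H W) (h : H)
    (w : W) : (((restr hW).ρ h w : W) : V) = R.ρ h w := rfl

/-- Restrictions of good representations to open subgroups are good. -/
theorem Good.restr (hR : R.Good) {H : Subgroup G} (hH : R.Open H) {W : Submodule k V}
    (hW : R.Stable H W) : (restr hW).Good where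
  fin := by
    have h1 : ((SRep.restr hW).s.ker : Set H) = (fun h : H => (h : G)) ⁻¹' (R.s.ker : Set G) := by
      ext h
      simp [MonoidHom.mem_ker]
    rw [h1]
    exact hR.fin.preimage Subtype.coe_injective.injOn
  cont := by
    classical
    intro T
    obtain ⟨T0, S0, h0⟩ := hH
    obtain ⟨S, hS⟩ := hR.cont (T.image (fun w : W => (w : V)) ∪ T0)
    refine ⟨S ∪ S0, fun g hg => ?_⟩
    obtain ⟨κ, hκ1, hκ2⟩ := hS g (fun c hc => hg c (Finset.mem_union_left _ hc))
    have hmem : κ⁻¹ * (g : G) ∈ H := by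
      apply h0
      · intro v hv
        rw [ρ_mul_apply, hκ2 v (Finset.mem_union_right _ hv), ρ_inv_apply]
      · intro c hc
        rw [map_mul, map_inv, hκ1, inv_one, one_mul]
        exact hg c (Finset.mem_union_right _ hc)
    have hκ : κ ∈ H := by
      have := H.mul_mem g.2 (H.inv_mem hmem)
      simpa using this
    refine ⟨⟨κ, hκ⟩, hκ1, fun v hv => ?_⟩
    ext
    exact hκ2 v (Finset.mem_union_left _ (Finset.mem_image_of_mem _ hv))
  alg := fun c => (hR.alg c).subset (by rintro _ ⟨g, rfl⟩; exact ⟨(g : G), rfl⟩)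

/-- An open subgroup for the restriction is open. -/
theorem open_map {H : Subgroup G} (hH : R.Open H) {W : Submodule k V}
    (hW : R.Stable H W) {H' : Subgroup H} (hH' : (restr hW).Open H') :
    R.Open (H'.map H.subtype) := by
  classical
  obtain ⟨T, S, h⟩ := hH
  obtain ⟨T', S', h'⟩ := hH'
  refine ⟨T ∪ T'.image (fun w : W => (w : V)), S ∪ S', fun g h1 h2 => ?_⟩
  have hg : g ∈ H := h g (fun v hv => h1 v (Finset.mem_union_left _ hv))
    (fun v hv => h2 v (Finset.mem_union_left _ hv))
  refine ⟨⟨g, hg⟩, h' ⟨g, hg⟩ (fun v hv => ?_) (fun c hc => ?_), rfl⟩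
  · ext
    exact h1 v (Finset.mem_union_right _ (Finset.mem_image_of_mem _ hv))
  · exact h2 c (Finset.mem_union_right _ hc)

end SRep

end

end Pool.Agent.K6.H72.FD
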