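import Pool.Agent.K6.H72.FD.Jordan

/-!
A canonical commuting subset of large index in a finite linear group.
-/

namespace Pool.Agent.K6.H72.FD

noncomputable section

/-- Jordan's theorem for linear actions over a field which embeds in the complex numbers. -/
theorem jordan_lin (n : ℕ) : ∃ J : ℕ, ∀ (k : Type) [Field k] (_ : k →+* ℂ) (V : Type)
    [AddCommGroup V] [Module k V] [FiniteDimensional k V], Module.finrank k V = n →
    ∀ (K : Type) [Group K] [Finite K] (θ : K →* Module.End k V), ∃ B : Subgroup K,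
      0 < B.index ∧ B.index ≤ J ∧ ∀ x ∈ B, ∀ y ∈ B, θ x * θ y = θ y * θ x := by
  obtain ⟨J, hJ⟩ := jordan_complex n
  refine ⟨J, fun k _ e V _ _ _ hn K _ _ θ => ?_⟩
  subst hn
  let b := Module.finBasis k V
  let ψ : K →* Matrix (Fin (Module.finrank k V)) (Fin (Module.finrank k V)) ℂ :=
    { toFun := fun x => (LinearMap.toMatrixAlgEquiv b (θ x)).map e
      map_one' := by
        rw [map_one, map_one]
        exact Matrix.map_one e (map_zero e) (map_one e)
      map_mul' := fun x y => by
        rw [map_mul, map_mul]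
        exact Matrix.map_mul }
  obtain ⟨B, h1, h2, h3⟩ := hJ K ψ
  refine ⟨B, h1, h2, fun x hx y hy => ?_⟩
  have h4 := h3 x hx y hy
  rw [← map_mul, ← map_mul] at h4 ⊢
  apply (LinearMap.toMatrixAlgEquiv b).injective
  exact Matrix.map_injective e.injective h4

variable {K : Type} [Group K] {E : Type} [Monoid E] (θ : K →* E)

/-- The elements whose image commutes with the image of `x`. -/
def cent (x : K) : Subgroup K where
  carrier := {y | θ y * θ x = θ x * θ y}
  mul_mem' {a b} ha hb := by
    simp only [Set.mem_setOf_eq] at *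
    rw [map_mul, mul_assoc, hb, ← mul_assoc, ha, mul_assoc]
  one_mem' := by simp
  inv_mem' {a} ha := by
    simp only [Set.mem_setOf_eq] at *
    have h1 : θ a⁻¹ * θ a = 1 := by rw [← map_mul, inv_mul_cancel, map_one]
    have h2 : θ a * θ a⁻¹ = 1 := by rw [← map_mul, mul_inv_cancel, map_one]
    calc θ a⁻¹ * θ x = θ a⁻¹ * θ x * (θ a * θ a⁻¹) := by rw [h2, mul_one]
      _ = θ a⁻¹ * (θ x * θ a) * θ a⁻¹ := by simp only [mul_assoc]
      _ = θ a⁻¹ * (θ a * θ x) * θ a⁻¹ := by rw [ha]
      _ = (θ a⁻¹ * θ a) * θ x * θ a⁻¹ := by simp only [mul_assoc]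
      _ = θ x * θ a⁻¹ := by rw [h1, one_mul]

theorem mem_cent {x y : K} : y ∈ cent θ x ↔ θ y * θ x = θ x * θ y := Iff.rfl

theorem mem_cent_comm {x y : K} : y ∈ cent θ x ↔ x ∈ cent θ y := by
  rw [mem_cent, mem_cent, eq_comm]

/-- The canonical set. -/
def canD (J : ℕ) : Set K := {x | (cent θ x).index ≤ J}

/-- The canonical commuting set. -/
def canZ (J : ℕ) : Set K := {x | x ∈ canD θ J ∧ ∀ y ∈ canD θ J, θ x * θ y = θ y * θ x}

theorem gen_aux [Finite K] (D : Set K) (m : ℕ) : ∀ B : Subgroup K, B.index ≤ m →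
    ∃ T : Finset K, (∀ x ∈ T, x ∈ D) ∧ T.card ≤ m ∧ D ⊆ Subgroup.closure ((B : Set K) ∪ T) := by
  classical
  induction m with
  | zero =>
    intro B hB
    have : B.index ≠ 0 := Subgroup.FiniteIndex.index_ne_zero
    omega
  | succ m ih =>
    intro B hB
    by_cases hD : D ⊆ B
    · refine ⟨∅, by simp, by simp, fun x hx => Subgroup.subset_closure (Or.inl (hD hx))⟩
    rw [Set.not_subset] at hD
    obtain ⟨d, hd, hdB⟩ := hD
    let B' : Subgroup K := Subgroup.closure ((B : Set K) ∪ {d})
    have hle : B ≤ B' := fun x hx => Subgroup.subset_closure (Or.inl hx)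
    have hd' : d ∈ B' := Subgroup.subset_closure (Or.inr rfl)
    have hlt : B'.index < B.index := by
      have h1 : B'.index ∣ B.index := Subgroup.index_dvd_of_le hle
      have h0 : B.index ≠ 0 := Subgroup.FiniteIndex.index_ne_zero
      refine lt_of_le_of_ne (Nat.le_of_dvd (Nat.pos_of_ne_zero h0) h1) ?_
      intro h
      have h2 := Subgroup.relIndex_mul_index hle
      rw [h] at h2
      have h3 : B.relIndex B' = 1 := by
        have : 0 < B.index := Nat.pos_of_ne_zero h0
        nlinarith
      rw [Subgroup.relIndex_eq_one] at h3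
      exact hdB (h3 hd')
    obtain ⟨T, hT1, hT2, hT3⟩ := ih B' (by omega)
    refine ⟨insert d T, ?_, ?_, ?_⟩
    · intro x hx
      rw [Finset.mem_insert] at hx
      rcases hx with rfl | hx
      · exact hd
      · exact hT1 x hx
    · exact (Finset.card_insert_le _ _).trans (by omega)
    · refine hT3.trans ?_
      rw [SetLike.coe_subset_coe, Subgroup.closure_le]
      rintro x (hx | hx)
      · refine (Subgroup.closure_mono ?_) hx
        intro y hy
        rcases hy with hy | hy
        · exact Or.inl hy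
        · rw [Set.mem_singleton_iff] at hy
          subst hy
          exact Or.inr (by simp)
      · exact Subgroup.subset_closure (Or.inr (by
          rw [Finset.coe_insert]; exact Set.mem_insert_of_mem _ hx))

theorem canZ_large [Finite K] {J : ℕ} {B : Subgroup K} (hB : B.index ≤ J)
    (hc : ∀ x ∈ B, ∀ y ∈ B, θ x * θ y = θ y * θ x) :
    ∃ Z0 : Subgroup K, Z0.index ≤ J * J ^ J ∧ ∀ x ∈ Z0, x ∈ canZ θ J := by
  classical
  have hJ : 0 < J := lt_of_lt_of_le (Nat.pos_of_ne_zero Subgroup.FiniteIndex.index_ne_zero) hB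
  obtain ⟨T, hT1, hT2, hT3⟩ := gen_aux (canD θ J) J B hB
  have hinf : (T.inf (cent θ)).index ≤ J ^ T.card := by
    clear hT2 hT3
    induction T using Finset.induction_on with
    | empty => simp
    | insert a T ha ih =>
      rw [Finset.inf_insert, Finset.card_insert_of_notMem ha, pow_succ']
      refine Subgroup.index_inf_le.trans ?_
      exact Nat.mul_le_mul (hT1 a (Finset.mem_insert_self _ _))
        (ih (fun x hx => hT1 x (Finset.mem_insert_of_mem hx)))
  refine ⟨B ⊓ T.inf (cent θ), ?_, ?_⟩
  · refine Subgroup.index_inf_le.trans (Nat.mul_le_mul hB (hinf.trans ?_))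
    exact Nat.pow_le_pow_right hJ hT2
  · rintro x ⟨hxB, hxT⟩
    have hBD : ∀ y ∈ B, y ∈ canD θ J := by
      intro y hy
      have hle : B ≤ cent θ y := fun z hz => hc z hz y hy
      exact (Nat.le_of_dvd (Nat.pos_of_ne_zero Subgroup.FiniteIndex.index_ne_zero)
        (Subgroup.index_dvd_of_le hle)).trans hB
    refine ⟨hBD x hxB, fun y hy => ?_⟩
    have h1 : (Subgroup.closure ((B : Set K) ∪ T)) ≤ cent θ x := by
      rw [Subgroup.closure_le]
      rintro z (hz | hz)
      · exact hc z hz x hxB
      · have h2 : T.inf (cent θ) ≤ cent θ z := Finset.inf_le hz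
        exact (mem_cent_comm θ).1 (h2 hxT)
    exact ((mem_cent θ).1 (h1 (hT3 hy))).symm

end

end Pool.Agent.K6.H72.FD
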