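import Pool.Agent.K6.H72.FD.Perm

/-!
Descent: when the kernel acts by scalars, the invariant operators span all operators, and there is
an invariant operator with two eigenvalues.
-/

namespace Pool.Agent.K6.H72.FD

noncomputable section

variable {k : Type} [Field k] {G : Type} [Group G] {V : Type} [AddCommGroup V] [Module k V]

namespace SRep

variable (R : SRep k G V)

theorem conjE_smul (g : G) (c : k) (b : Module.End k V) :
    R.conjE g (c • b) = R.s g c • R.conjE g b := by
  ext v
  simp [R.semi]

theorem conjE_add (g : G) (a b : Module.End k V) :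
    R.conjE g (a + b) = R.conjE g a + R.conjE g b := by
  ext v
  simp

theorem conjE_sum (g : G) {ι : Type} (t : Finset ι) (f : ι → Module.End k V) :
    R.conjE g (∑ i ∈ t, f i) = ∑ i ∈ t, R.conjE g (f i) := by
  classical
  induction t using Finset.induction_on with
  | empty => ext v; simp
  | insert i t hi ih => rw [Finset.sum_insert hi, Finset.sum_insert hi, conjE_add, ih]

variable {R}

/-- A finite index normal subgroup which fixes a given operator. -/
theorem exists_normal [FiniteDimensional k V] (hR : R.Good)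
    (hsc : ∀ κ, R.s κ = 1 → ∃ c : k, ∀ v, R.ρ κ v = c • v) (X : Module.End k V) :
    ∃ (S : Set k), S.Finite ∧ (∀ g, ∀ c ∈ S, R.s g c ∈ S) ∧
      ∀ g, (∀ c ∈ S, R.s g c = c) → R.conjE g X = X := by
  classical
  let b := Module.finBasis k V
  obtain ⟨S, hS⟩ := hR.cont (Finset.univ.image b ∪ Finset.univ.image (fun i => X (b i)))
  refine ⟨⋃ c ∈ S, Set.range (fun g => R.s g c), ?_, ?_, ?_⟩
  · exact S.finite_toSet.biUnion (fun c _ => hR.alg c)
  · intro g c hc
    simp only [Set.mem_iUnion, Set.mem_range] at hc ⊢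
    obtain ⟨d, hd, h, rfl⟩ := hc
    exact ⟨d, hd, g * h, R.s_mul_apply _ _ _⟩
  · intro g hg
    obtain ⟨κ, hκ, hT⟩ := hS g (fun c hc => hg c (by
      simp only [Set.mem_iUnion, Set.mem_range]
      exact ⟨c, hc, 1, R.s_one_apply c⟩))
    obtain ⟨c, hc⟩ := hsc κ hκ
    have h1 : ∀ i, R.ρ g (b i) = c • b i := fun i => by
      rw [hT _ (Finset.mem_union_left _ (Finset.mem_image_of_mem _ (Finset.mem_univ i))), hc]
    have h2 : ∀ i, R.ρ g (X (b i)) = c • X (b i) := fun i => by
      rw [hT _ (Finset.mem_union_right _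
        (Finset.mem_image_of_mem (fun i => X (b i)) (Finset.mem_univ i))), hc]
    apply b.ext
    intro i
    have hc0 : c ≠ 0 := by
      rintro rfl
      have := h1 i
      rw [zero_smul] at this
      have h3 : b i = 0 := by rw [← R.ρ_inv_apply g (b i), this, map_zero]
      exact b.ne_zero i h3
    have h4 : R.conjE g X (R.ρ g (b i)) = R.ρ g (X (b i)) := R.conjE_ρ g X (b i)
    rw [h1, h2, map_smul] at h4
    exact smul_right_injective _ hc0 h4

/-- The invariant operators span. -/
theorem span_fixed [FiniteDimensional k V] (hR : R.Good)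
    (hsc : ∀ κ, R.s κ = 1 → ∃ c : k, ∀ v, R.ρ κ v = c • v) :
    Submodule.span k {Y : Module.End k V | ∀ g, R.conjE g Y = Y} = ⊤ := by
  classical
  rw [eq_top_iff]
  rintro X -
  obtain ⟨S, hSf, hSst, hSX⟩ := exists_normal hR hsc X
  let N : Subgroup G :=
    { carrier := {g | ∀ c ∈ S, R.s g c = c}
      mul_mem' := by
        intro a b ha hb c hc
        rw [s_mul_apply, hb c hc, ha c hc]
      one_mem' := fun c _ => R.s_one_apply c
      inv_mem' := by
        intro a ha c hc
        conv_lhs => rw [← ha c hc]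
        rw [s_inv_apply] }
  have hNfin : 0 < N.index := by
    have : Finite S := hSf
    refine (index_le_of_fun N (X := S → S) Set.univ Set.finite_univ
      (fun g c => ⟨R.s g c, hSst g c c.2⟩) (fun _ => Set.mem_univ _) ?_).1
    intro g g' h c hc
    have h1 : R.s g c = R.s g' c := congrArg Subtype.val (congrFun h ⟨c, hc⟩)
    rw [s_mul_apply, ← h1, s_inv_apply]
  have : N.FiniteIndex := ⟨hNfin.ne'⟩
  have : Finite (G ⧸ N) := inferInstance
  have := Fintype.ofFinite (G ⧸ N)
  -- the subfield of elements fixed by `N`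
  let M : Submonoid k :=
    { carrier := {c | ∀ g ∈ N, R.s g c = c}
      mul_mem' := by
        intro a b ha hb g hg
        rw [map_mul, ha g hg, hb g hg]
      one_mem' := fun g _ => map_one _ }
  have hSM : ∀ c ∈ S, c ∈ M := fun c hc g hg => hg c hc
  have hfixX : ∀ g ∈ N, R.conjE g X = X := fun g hg => hSX g hg
  let Φ : k → G → Module.End k V := fun c h => R.s h c • R.conjE h X
  have hΦ : ∀ c ∈ M, ∀ h, ∀ n ∈ N, Φ c (h * n) = Φ c h := by
    intro c hc h n hn
    simp only [Φ]
    rw [s_mul_apply, hc n hn, conjE_mul, hfixX n hn]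
  have hΦ2 : ∀ c ∈ M, ∀ h h' : G, (h : G ⧸ N) = (h' : G ⧸ N) → Φ c h = Φ c h' := by
    intro c hc h h' hh
    have := QuotientGroup.eq.1 hh
    have h2 := hΦ c hc h _ this
    rw [← h2, mul_inv_cancel_left]
  let T : k → Module.End k V := fun c => ∑ q : G ⧸ N, Φ c q.out
  have hT : ∀ c ∈ M, ∀ g, R.conjE g (T c) = T c := by
    intro c hc g
    simp only [T]
    rw [conjE_sum]
    have h1 : ∀ q : G ⧸ N, R.conjE g (Φ c q.out) = Φ c ((g • q).out) := by
      intro q
      have h2 : R.conjE g (Φ c q.out) = Φ c (g * q.out) := by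
        simp only [Φ]
        rw [conjE_smul, conjE_mul, s_mul_apply]
      rw [h2]
      apply hΦ2 c hc
      rw [QuotientGroup.out_eq']
      conv_rhs => rw [← QuotientGroup.out_eq' q]
      rfl
    simp_rw [h1]
    exact Equiv.sum_comp (MulAction.toPerm g : Equiv.Perm (G ⧸ N)) (fun q => Φ c q.out)
  by_contra hX
  obtain ⟨ℓ, hℓX, hℓ⟩ := Submodule.exists_le_ker_of_notMem (K := k) hX
  have h0 : ∀ c ∈ M, ∑ q : G ⧸ N, ℓ (R.conjE q.out X) * R.s q.out c = 0 := by
    intro c hc
    have h1 : ℓ (T c) = 0 := hℓ (Submodule.subset_span (hT c hc))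
    simp only [T, Φ, map_sum, map_smul, smul_eq_mul] at h1
    rw [← h1]
    exact Finset.sum_congr rfl (fun q _ => mul_comm _ _)
  let φ : G ⧸ N → (M →* k) := fun q =>
    ((R.s q.out : k ≃+* k) : k →* k).comp M.subtype
  have hφ : Function.Injective φ := by
    intro q q' h
    have h1 : q.out⁻¹ * q'.out ∈ N := by
      intro c hc
      have h2 : R.s q.out c = R.s q'.out c := DFunLike.congr_fun h (⟨c, hSM c hc⟩ : M)
      rw [s_mul_apply, ← h2, s_inv_apply]
    rw [← QuotientGroup.out_eq' q, ← QuotientGroup.out_eq' q']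
    exact QuotientGroup.eq.2 h1
  have hli := (linearIndependent_monoidHom M k).comp φ hφ
  rw [Fintype.linearIndependent_iff] at hli
  have h2 := hli (fun q => ℓ (R.conjE q.out X)) (by
    ext c
    simpa [φ, Finset.sum_apply] using h0 c.1 c.2)
  apply hℓX
  have h3 := h2 ((1 : G) : G ⧸ N)
  have h4 : (((1 : G) : G ⧸ N)).out ∈ N := by
    have := QuotientGroup.out_eq' ((1 : G) : G ⧸ N)
    have h5 := QuotientGroup.eq.1 this
    simpa using h5
  rwa [hfixX _ h4] at h3

/-- An operator with a single generalised eigenvalue. -/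
theorem trace_single [CharZero k] [FiniteDimensional k V] {Y : Module.End k V} {μ : k}
    (h : Y.maxGenEigenspace μ = ⊤) :
    LinearMap.trace k V Y = Module.finrank k V * μ ∧
      LinearMap.trace k V (Y * Y) = Module.finrank k V * μ ^ 2 := by
  have hN : IsNilpotent (Y - μ • (1 : Module.End k V)) := by
    refine ⟨Y.maxGenEigenspaceIndex μ, ?_⟩
    rw [← LinearMap.ker_eq_top]
    rw [← h, Module.End.maxGenEigenspace_eq]
    rw [Module.End.genEigenspace_nat]
  have h1 : LinearMap.trace k V (Y - μ • (1 : Module.End k V)) = 0 :=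
    (LinearMap.isNilpotent_trace_of_isNilpotent hN).eq_zero
  have h2 : LinearMap.trace k V
      ((Y - μ • (1 : Module.End k V)) * (Y - μ • (1 : Module.End k V))) = 0 :=
    (LinearMap.isNilpotent_trace_of_isNilpotent
      (Commute.isNilpotent_mul_right (Commute.refl _) hN)).eq_zero
  have h3 : LinearMap.trace k V Y = Module.finrank k V * μ := by
    rw [map_sub, map_smul, LinearMap.trace_one, sub_eq_zero] at h1
    rw [h1, smul_eq_mul, mul_comm]
  refine ⟨h3, ?_⟩
  have h4 : (Y - μ • (1 : Module.End k V)) * (Y - μ • (1 : Module.End k V)) =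
      Y * Y - (2 * μ) • Y + (μ ^ 2) • (1 : Module.End k V) := by
    ext v
    simp only [Module.End.mul_apply, LinearMap.sub_apply, LinearMap.smul_apply,
      Module.End.one_apply, map_sub, map_smul, LinearMap.add_apply]
    module
  rw [h4, map_add, map_sub, map_smul, map_smul, LinearMap.trace_one, h3, smul_eq_mul,
    smul_eq_mul] at h2
  linear_combination h2

theorem exists_fixed [CharZero k] [FiniteDimensional k V] (hR : R.Good)
    (hsc : ∀ κ, R.s κ = 1 → ∃ c : k, ∀ v, R.ρ κ v = c • v) (h2 : 2 ≤ Module.finrank k V) :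
    ∃ Y : Module.End k V, (∀ g, R.conjE g Y = Y) ∧ ∀ μ, Y.maxGenEigenspace μ ≠ ⊤ := by
  by_contra hcon
  push Not at hcon
  set r : k := (Module.finrank k V : k) with hr
  let tr := LinearMap.trace k V
  have hQ : ∀ Y : Module.End k V, (∀ g, R.conjE g Y = Y) → r * tr (Y * Y) = tr Y ^ 2 := by
    intro Y hY
    obtain ⟨μ, hμ⟩ := hcon Y hY
    obtain ⟨h3, h4⟩ := trace_single hμ
    simp only [tr]
    rw [h3, h4, ← hr]
    ring
  have hB : ∀ Y Z : Module.End k V, (∀ g, R.conjE g Y = Y) → (∀ g, R.conjE g Z = Z) →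
      r * tr (Y * Z) = tr Y * tr Z := by
    intro Y Z hY hZ
    have h3 := hQ (Y + Z) (fun g => by rw [conjE_add, hY, hZ])
    have h4 := hQ Y hY
    have h5 := hQ Z hZ
    have h6 : tr (Z * Y) = tr (Y * Z) := LinearMap.trace_mul_comm k Z Y
    have h7 : tr ((Y + Z) * (Y + Z)) = tr (Y * Y) + tr (Y * Z) + tr (Z * Y) + tr (Z * Z) := by
      rw [← map_add, ← map_add, ← map_add]
      congr 1
      noncomm_ring
    rw [h7, h6, map_add] at h3
    have h8 : (2 : k) * (r * tr (Y * Z) - tr Y * tr Z) = 0 := by
      linear_combination h3 - h4 - h5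
    rcases mul_eq_zero.1 h8 with h | h
    · exact absurd h two_ne_zero
    · exact sub_eq_zero.1 h
  have hspan := span_fixed hR hsc
  have hB2 : ∀ X Z : Module.End k V, (∀ g, R.conjE g Z = Z) → r * tr (X * Z) = tr X * tr Z := by
    intro X Z hZ
    have hX : X ∈ Submodule.span k {Y : Module.End k V | ∀ g, R.conjE g Y = Y} := by
      rw [hspan]; trivial
    induction hX using Submodule.span_induction with
    | mem x hx => exact hB x Z hx hZ
    | zero => simp
    | add x y _ _ hx hy => rw [add_mul, map_add, map_add, mul_add, hx, hy, add_mul]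
    | smul c x _ hx =>
      rw [smul_mul_assoc, map_smul, map_smul, smul_eq_mul, smul_eq_mul]
      linear_combination c * hx
  have hB3 : ∀ X Z : Module.End k V, r * tr (X * Z) = tr X * tr Z := by
    intro X Z
    have hZ : Z ∈ Submodule.span k {Y : Module.End k V | ∀ g, R.conjE g Y = Y} := by
      rw [hspan]; trivial
    induction hZ using Submodule.span_induction with
    | mem x hx => exact hB2 X x hx
    | zero => simp
    | add x y _ _ hx hy => rw [mul_add, map_add, map_add, mul_add, hx, hy, mul_add]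
    | smul c x _ hx =>
      rw [mul_smul_comm, map_smul, map_smul, smul_eq_mul, smul_eq_mul]
      linear_combination c * hx
  let b := Module.finBasis k V
  let i0 : Fin (Module.finrank k V) := ⟨0, by omega⟩
  let E : Module.End k V := (b.coord i0).smulRight (b i0)
  have hE : tr E = 1 := by
    simp only [tr, E]
    rw [LinearMap.trace_smulRight]
    simp
  have hEE : E * E = E := by
    ext v
    simp [E]
  have h9 := hB3 E E
  rw [hEE, hE] at h9
  have h10 : (Module.finrank k V : k) = 1 := by linear_combination h9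
  have h11 : Module.finrank k V = 1 := by exact_mod_cast h10
  omega

end SRep

end

end Pool.Agent.K6.H72.FD
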