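import Pool.Agent.K6.H72.FD.Canon
import Pool.Agent.K6.H72.FD.CaseB

/-!
The splitting lemma.
-/

namespace Pool.Agent.K6.H72.FD

noncomputable section

/-- An operator of finite order with a single generalised eigenvalue is a scalar. -/
theorem scalar_of_finite_order {k : Type} [Field k] [CharZero k] {V : Type} [AddCommGroup V]
    [Module k V] [FiniteDimensional k V] {T : Module.End k V} {m : ℕ} (hm : 0 < m)
    (hT : T ^ m = 1) {μ : k} (h : T.maxGenEigenspace μ = ⊤) : ∀ v, T v = μ • v := by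
  have hss : T.IsSemisimple := by
    have hsep : (Polynomial.X ^ m - 1 : Polynomial k).Separable :=
      Polynomial.X_pow_sub_one_separable_iff.2 (by exact_mod_cast hm.ne')
    apply Module.End.isSemisimple_of_squarefree_aeval_eq_zero hsep.squarefree
    simp [hT]
  have h1 := hss.isFinitelySemisimple.maxGenEigenspace_eq_eigenspace μ
  intro v
  have h2 : v ∈ T.eigenspace μ := by
    rw [← h1, h]
    trivial
  exact Module.End.mem_eigenspace_iff.1 h2

variable {k : Type} [Field k] {G : Type} [Group G] {V : Type} [AddCommGroup V] [Module k V]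

namespace SRep

variable (R : SRep k G V)

theorem conjE_mul' (g : G) (a b : Module.End k V) :
    R.conjE g (a * b) = R.conjE g a * R.conjE g b := by
  ext v
  simp [ρ_inv_apply]

theorem conjE_inj (g : G) {a b : Module.End k V} (h : R.conjE g a = R.conjE g b) : a = b := by
  rw [← R.conjE_inv g a, h, conjE_inv]

/-- The linear action of the kernel. -/
def kerRep : R.s.ker →* Module.End k V where
  toFun κ :=
    { toFun := R.ρ (κ : G)
      map_add' := fun v w => map_add _ v w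
      map_smul' := fun c v => by
        rw [R.semi, (MonoidHom.mem_ker.1 κ.2 : R.s (κ : G) = 1)]
        rfl }
  map_one' := by
    ext v
    exact R.ρ_one_apply v
  map_mul' κ κ' := by
    ext v
    exact R.ρ_mul_apply _ _ v

@[simp] theorem kerRep_apply (κ : R.s.ker) (v : V) : R.kerRep κ v = R.ρ (κ : G) v := rfl

theorem conjE_kerRep (g : G) (κ : R.s.ker) :
    R.conjE g (R.kerRep κ) = R.kerRep (MulAut.conjNormal g κ) := by
  ext v
  simp only [conjE_apply, kerRep_apply, MulAut.conjNormal_apply]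
  rw [ρ_mul_apply, ρ_mul_apply]

theorem cent_index (g : G) (κ : R.s.ker) :
    (cent R.kerRep (MulAut.conjNormal g κ)).index = (cent R.kerRep κ).index := by
  have h1 : (cent R.kerRep (MulAut.conjNormal g κ)).comap
      ((MulAut.conjNormal g : MulAut R.s.ker) : R.s.ker →* R.s.ker) = cent R.kerRep κ := by
    ext x
    rw [Subgroup.mem_comap]
    show R.kerRep (MulAut.conjNormal g x) * R.kerRep (MulAut.conjNormal g κ) =
      R.kerRep (MulAut.conjNormal g κ) * R.kerRep (MulAut.conjNormal g x) ↔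
      R.kerRep x * R.kerRep κ = R.kerRep κ * R.kerRep x
    rw [← conjE_kerRep, ← conjE_kerRep, ← conjE_mul', ← conjE_mul']
    constructor
    · exact fun h => R.conjE_inj g h
    · intro h
      rw [h]
  rw [← h1]
  exact (Subgroup.index_comap_of_surjective _
    (MulAut.conjNormal g : MulAut R.s.ker).surjective).symm

theorem canZ_stable (J : ℕ) (g : G) {κ : R.s.ker} (hκ : κ ∈ canZ R.kerRep J) :
    MulAut.conjNormal g κ ∈ canZ R.kerRep J := by
  have hD : ∀ (g : G) {κ : R.s.ker}, κ ∈ canD R.kerRep J →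
      MulAut.conjNormal g κ ∈ canD R.kerRep J := by
    intro g κ h
    unfold canD at h ⊢
    rw [Set.mem_setOf_eq] at h ⊢
    rwa [cent_index]
  refine ⟨hD g hκ.1, fun y hy => ?_⟩
  have h1 := hκ.2 _ (hD g⁻¹ hy)
  have h2 := congrArg (R.conjE g) h1
  rw [conjE_mul', conjE_mul', conjE_kerRep, conjE_kerRep] at h2
  have h3 : MulAut.conjNormal g (MulAut.conjNormal g⁻¹ y) = y := by
    ext
    simp [MulAut.conjNormal_apply]
  rwa [h3] at h2

variable {R}

/-- The case in which some element of the kernel does not act by a scalar. -/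
theorem caseA [CharZero k] [IsAlgClosed k] [FiniteDimensional k V] (hR : R.Good) {J : ℕ}
    {B : Subgroup R.s.ker} (hB : B.index ≤ J)
    (hc : ∀ x ∈ B, ∀ y ∈ B, R.kerRep x * R.kerRep y = R.kerRep y * R.kerRep x)
    {κ0 : R.s.ker} (hκ0 : ∀ c : k, R.kerRep κ0 ≠ c • 1) :
    ∃ G1 : Subgroup G, R.Open G1 ∧ 0 < G1.index ∧ G1.index ≤ J * J ^ J ∧
      ∃ 𝓑 : Set (Module.End k V), (∀ a ∈ 𝓑, ∀ b ∈ 𝓑, Commute a b) ∧
        (∀ g ∈ G1, ∀ b ∈ 𝓑, R.conjE g b ∈ 𝓑) ∧
        ∃ b0 ∈ 𝓑, ∀ μ, b0.maxGenEigenspace μ ≠ ⊤ := by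
  classical
  have hfin : Finite R.s.ker := hR.fin
  have hJ : 0 < J := lt_of_lt_of_le (Nat.pos_of_ne_zero Subgroup.FiniteIndex.index_ne_zero) hB
  have hns : ∀ κ : R.s.ker, (∀ c : k, R.kerRep κ ≠ c • 1) →
      ∀ μ, (R.kerRep κ).maxGenEigenspace μ ≠ ⊤ := by
    intro κ hκ μ h
    apply hκ μ
    have h1 : (R.kerRep κ) ^ (orderOf κ) = 1 := by
      rw [← map_pow, pow_orderOf_eq_one, map_one]
    ext v
    rw [scalar_of_finite_order (orderOf_pos κ) h1 h]
    simp
  by_cases hcase : ∃ z ∈ canZ R.kerRep J, ∀ c : k, R.kerRep z ≠ c • 1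
  · obtain ⟨z, hz, hzc⟩ := hcase
    refine ⟨⊤, R.open_top, by simp, ?_, {b | ∃ z ∈ canZ R.kerRep J, R.kerRep z = b}, ?_, ?_,
      R.kerRep z, ⟨z, hz, rfl⟩, hns z hzc⟩
    · rw [Subgroup.index_top]
      exact Nat.mul_pos hJ (Nat.pow_pos hJ)
    · rintro _ ⟨x, hx, rfl⟩ _ ⟨y, hy, rfl⟩
      exact hx.2 y hy.1
    · rintro g - _ ⟨x, hx, rfl⟩
      exact ⟨_, R.canZ_stable J g hx, (R.conjE_kerRep g x).symm⟩
  · push Not at hcase
    obtain ⟨Z0, hZ0, hZ0'⟩ := canZ_large R.kerRep hB hc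
    let X := R.kerRep κ0
    let Sc : Subgroup R.s.ker :=
      { carrier := {y | ∃ c : k, R.kerRep y = c • 1}
        mul_mem' := by
          rintro a b ⟨c, hc⟩ ⟨d, hd⟩
          exact ⟨c * d, by rw [map_mul, hc, hd]; ext v; simp [mul_smul, smul_comm c d]⟩
        one_mem' := ⟨1, by simp⟩
        inv_mem' := by
          rintro a ⟨c, hc⟩
          by_cases hc0 : c = 0
          · subst hc0
            refine ⟨0, ?_⟩
            have h1 : R.kerRep a⁻¹ * R.kerRep a = 1 := by rw [← map_mul, inv_mul_cancel, map_one]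
            rw [hc, zero_smul, mul_zero] at h1
            rw [zero_smul, ← mul_one (R.kerRep a⁻¹), ← h1, mul_zero]
          · refine ⟨c⁻¹, ?_⟩
            have h1 : R.kerRep a⁻¹ * R.kerRep a = 1 := by rw [← map_mul, inv_mul_cancel, map_one]
            rw [hc, mul_smul_comm, mul_one] at h1
            rw [← h1, smul_smul, inv_mul_cancel₀ hc0, one_smul] }
    have hScle : Z0 ≤ Sc := fun x hx => hcase x (hZ0' x hx)
    have hScidx : Sc.index ≤ J * J ^ J :=
      (Nat.le_of_dvd (Nat.pos_of_ne_zero Subgroup.FiniteIndex.index_ne_zero)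
        (Subgroup.index_dvd_of_le hScle)).trans hZ0
    let G1 : Subgroup G :=
      { carrier := {g | ∃ c : k, c ≠ 0 ∧ R.conjE g X = c • X}
        mul_mem' := by
          rintro a b ⟨c, hc0, hc⟩ ⟨d, hd0, hd⟩
          refine ⟨R.s a d * c, mul_ne_zero (by simpa using hd0) hc0, ?_⟩
          rw [conjE_mul, hd, conjE_smul, hc, smul_smul]
        one_mem' := ⟨1, one_ne_zero, by rw [conjE_one, one_smul]⟩
        inv_mem' := by
          rintro a ⟨c, hc0, hc⟩
          refine ⟨(R.s a⁻¹ c)⁻¹, inv_ne_zero (by simpa using hc0), ?_⟩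
          have h1 := congrArg (R.conjE a⁻¹) hc
          rw [conjE_inv, conjE_smul] at h1
          have h2 : R.s a⁻¹ c ≠ 0 := by simpa using hc0
          conv_rhs => rw [h1]
          rw [smul_smul, inv_mul_cancel₀ h2, one_smul] }
    have hidx := index_le_of_fun G1 (X := R.s.ker ⧸ Sc) Set.univ Set.finite_univ
      (fun g => ((MulAut.conjNormal g κ0 : R.s.ker) : R.s.ker ⧸ Sc)) (fun _ => Set.mem_univ _) (by
        intro g g' h
        obtain ⟨c, hc⟩ := QuotientGroup.eq.1 h
        have h1 : R.conjE g' X = c • R.conjE g X := by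
          simp only [X]
          rw [conjE_kerRep, conjE_kerRep]
          have h2 : R.kerRep (MulAut.conjNormal g κ0) *
              R.kerRep ((MulAut.conjNormal g κ0)⁻¹ * MulAut.conjNormal g' κ0) =
              R.kerRep (MulAut.conjNormal g' κ0) := by
            rw [← map_mul, mul_inv_cancel_left]
          rw [← h2, hc, mul_smul_comm, mul_one]
        have hX : X ≠ 0 := fun h => hκ0 0 (by rw [zero_smul]; exact h)
        have hc0 : c ≠ 0 := by
          rintro rfl
          rw [zero_smul] at h1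
          apply hX
          apply R.conjE_inj g'
          rw [h1]
          ext v
          simp
        refine ⟨R.s g⁻¹ c, by simpa using hc0, ?_⟩
        rw [conjE_mul, h1, conjE_smul, conjE_inv])
    refine ⟨G1, ?_, hidx.1, hidx.2.trans ?_, {b | ∃ c : k, c • X = b}, ?_, ?_, X,
      ⟨1, one_smul _ _⟩, hns κ0 hκ0⟩
    · let b := Module.finBasis k V
      refine ⟨Finset.univ.image b ∪ Finset.univ.image (fun i => X (b i)), ∅, fun g hg _ => ?_⟩
      refine ⟨1, one_ne_zero, ?_⟩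
      rw [one_smul]
      apply b.ext
      intro i
      have h1 := hg _ (Finset.mem_union_left _ (Finset.mem_image_of_mem b (Finset.mem_univ i)))
      have h2 := hg _ (Finset.mem_union_right _
        (Finset.mem_image_of_mem (fun i => X (b i)) (Finset.mem_univ i)))
      have h3 := R.conjE_ρ g X (b i)
      rw [h1] at h3
      rw [h3, h2]
    · rw [Set.ncard_univ]
      exact hScidx
    · rintro _ ⟨c, rfl⟩ _ ⟨d, rfl⟩
      exact ((Commute.refl X).smul_left c).smul_right d
    · rintro g ⟨c, -, hc⟩ _ ⟨d, rfl⟩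
      exact ⟨R.s g d * c, by rw [conjE_smul, hc, smul_smul]⟩

end SRep

/-- The splitting lemma. -/
theorem split (n : ℕ) : ∃ C : ℕ, ∀ (k : Type) [Field k] [IsAlgClosed k] (_ : k →+* ℂ)
    (V : Type) [AddCommGroup V] [Module k V] [FiniteDimensional k V], Module.finrank k V = n →
    2 ≤ n → ∀ (G : Type) [Group G] (R : SRep k G V), R.Good →
    ∃ H : Subgroup G, R.Open H ∧ 0 < H.index ∧ H.index ≤ C ∧
      ∃ W1 W2 : Submodule k V, IsCompl W1 W2 ∧ W1 ≠ ⊥ ∧ W2 ≠ ⊥ ∧ R.Stable H W1 ∧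
        R.Stable H W2 := by
  classical
  obtain ⟨J, hJ⟩ := jordan_lin n
  refine ⟨n * (J * J ^ J + 1), fun k _ _ e V _ _ _ hn h2 G _ R hR => ?_⟩
  have : CharZero k := RingHom.charZero e
  have hfin : Finite R.s.ker := hR.fin
  have main : ∃ G1 : Subgroup G, R.Open G1 ∧ 0 < G1.index ∧ G1.index ≤ J * J ^ J + 1 ∧
      ∃ 𝓑 : Set (Module.End k V), (∀ a ∈ 𝓑, ∀ b ∈ 𝓑, Commute a b) ∧
        (∀ g ∈ G1, ∀ b ∈ 𝓑, R.conjE g b ∈ 𝓑) ∧
        ∃ b0 ∈ 𝓑, ∀ μ, b0.maxGenEigenspace μ ≠ ⊤ := by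
    by_cases hsc : ∀ κ, R.s κ = 1 → ∃ c : k, ∀ v, R.ρ κ v = c • v
    · obtain ⟨Y, hY1, hY2⟩ := SRep.exists_fixed hR hsc (by omega)
      refine ⟨⊤, R.open_top, by simp, by simp, {Y}, ?_, ?_, Y, rfl, hY2⟩
      · rintro a rfl b rfl
        exact Commute.refl _
      · rintro g - b rfl
        exact hY1 g
    · push Not at hsc
      obtain ⟨κ, hκ, hκc⟩ := hsc
      obtain ⟨B, hB1, hB2, hB3⟩ := hJ k e V hn R.s.ker R.kerRep
      obtain ⟨G1, h1, h3, h4, h5⟩ := SRep.caseA hR hB2 hB3 (κ0 := ⟨κ, hκ⟩) (by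
        intro c hc
        obtain ⟨v, hv⟩ := hκc c
        apply hv
        have := congrArg (fun f : Module.End k V => f v) hc
        simpa using this)
      exact ⟨G1, h1, h3, by omega, h5⟩
  obtain ⟨G1, h1, h3, h4, 𝓑, h5, h6, b0, h7, h8⟩ := main
  obtain ⟨H, hH1, hH2, hH3, hH4, W1, W2, hW⟩ := SRep.split_of_family h1 𝓑 h5 h6 h7 h8
  refine ⟨H, hH2, ?_, ?_, W1, W2, hW⟩
  · rw [← Subgroup.relIndex_mul_index hH1]
    exact Nat.mul_pos hH3 h3
  · rw [← Subgroup.relIndex_mul_index hH1]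
    exact Nat.mul_le_mul (hn ▸ hH4) h4

end

end Pool.Agent.K6.H72.FD
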