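import Pool.Agent.K6.H72.FD.Perm

/-!
The degree of a fixed field over a smaller fixed field is at most the index.
-/

namespace Pool.Agent.K6.H72.FD

noncomputable section

theorem rank_le_of_elem {K0 k : Type} [Field K0] [CharZero K0] [Field k] [Algebra K0 k]
    [Algebra.IsAlgebraic K0 k] (E : IntermediateField K0 k) (m : ℕ)
    (h : ∀ x ∈ E, (minpoly K0 x).natDegree ≤ m) : Module.rank K0 E ≤ m := by
  classical
  apply rank_le
  intro s hs
  let S : Set k := ((fun x : E => (x : k)) '' (s : Set E))
  let M : IntermediateField K0 k := IntermediateField.adjoin K0 S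
  have hSf : S.Finite := s.finite_toSet.image _
  have : FiniteDimensional K0 M := by
    have := hSf.to_subtype
    exact IntermediateField.finiteDimensional_adjoin
      (fun x _ => Algebra.IsIntegral.isIntegral x)
  have hME : M ≤ E := by
    rw [IntermediateField.adjoin_le_iff]
    rintro _ ⟨x, -, rfl⟩
    exact x.2
  obtain ⟨α, hα⟩ := Field.exists_primitive_element K0 M
  have h1 : Module.finrank K0 M = (minpoly K0 α).natDegree := by
    rw [← IntermediateField.adjoin.finrank (Algebra.IsIntegral.isIntegral α), hα,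
      IntermediateField.finrank_top']
  have h2 : (minpoly K0 α).natDegree ≤ m := by
    have h3 : minpoly K0 (α : k) = minpoly K0 α :=
      minpoly.algebraMap_eq (algebraMap M k).injective α
    rw [← h3]
    exact h _ (hME α.2)
  have hmem : ∀ x : s, ((x : E) : k) ∈ M := fun x =>
    IntermediateField.subset_adjoin K0 S ⟨x, x.2, rfl⟩
  have hli : LinearIndependent K0 (fun x : s => (⟨((x : E) : k), hmem x⟩ : M)) := by
    have h4 : LinearIndependent K0 (fun x : s => ((x : E) : k)) :=
      hs.map' E.val.toLinearMap (LinearMap.ker_eq_bot.2 E.val.injective)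
    exact LinearIndependent.of_comp M.val.toLinearMap h4
  have h5 := hli.fintype_card_le_finrank
  rw [Fintype.card_coe] at h5
  omega

theorem relrank_le {k : Type} [Field k] [CharZero k] [Algebra ℚ k] [Algebra.IsAlgebraic ℚ k]
    {G : Type} [Group G] (s : G →* (k ≃ₐ[ℚ] k)) (H : Subgroup G) (hH : 0 < H.index) :
    IntermediateField.relrank (IntermediateField.fixedField s.range)
      (IntermediateField.fixedField (H.map s)) ≤ H.index := by
  classical
  set K0 := IntermediateField.fixedField (F := ℚ) (E := k) s.range with hK0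
  set L := IntermediateField.fixedField (F := ℚ) (E := k) (H.map s) with hL
  have hle : K0 ≤ L := by
    apply IntermediateField.fixedField_antitone
    rintro _ ⟨g, -, rfl⟩
    exact ⟨g, rfl⟩
  rw [IntermediateField.relrank_eq_rank_of_le hle]
  have : H.FiniteIndex := ⟨hH.ne'⟩
  have : Finite (G ⧸ H) := inferInstance
  have := Fintype.ofFinite (G ⧸ H)
  have : Algebra.IsAlgebraic K0 k := Algebra.IsAlgebraic.tower_top (K := ℚ) K0
  apply rank_le_of_elem
  intro x hx
  have hxL : ∀ h ∈ H, s h x = x := by
    intro h hh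
    have : x ∈ L := hx
    rw [hL, IntermediateField.mem_fixedField_iff] at this
    exact this _ ⟨h, hh, rfl⟩
  let O : Finset k := Finset.univ.image (fun q : G ⧸ H => s q.out x)
  have hO : ∀ g, s g x ∈ O := by
    intro g
    refine Finset.mem_image.2 ⟨(g : G ⧸ H), Finset.mem_univ _, ?_⟩
    have h1 : ((g : G ⧸ H)).out⁻¹ * g ∈ H := by
      apply QuotientGroup.eq.1
      exact QuotientGroup.out_eq' _
    have h2 := hxL _ h1
    rw [map_mul, AlgEquiv.mul_apply] at h2
    have h3 := congrArg (s ((g : G ⧸ H)).out) h2
    rw [← AlgEquiv.mul_apply, ← map_mul, mul_inv_cancel, map_one, AlgEquiv.one_apply] at h3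
    exact h3.symm
  have hO' : ∀ y ∈ O, ∃ g, s g x = y := by
    intro y hy
    obtain ⟨q, -, rfl⟩ := Finset.mem_image.1 hy
    exact ⟨q.out, rfl⟩
  let p : Polynomial k := ∏ y ∈ O, (Polynomial.X - Polynomial.C y)
  have hperm : ∀ g, O.image (s g) = O := by
    intro g
    apply Finset.eq_of_subset_of_card_le
    · intro y hy
      obtain ⟨z, hz, rfl⟩ := Finset.mem_image.1 hy
      obtain ⟨g', rfl⟩ := hO' z hz
      rw [← AlgEquiv.mul_apply, ← map_mul]
      exact hO _
    · rw [Finset.card_image_of_injective _ (s g).injective]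
  have hpfix : ∀ g, p.map ((s g : k ≃ₐ[ℚ] k) : k →+* k) = p := by
    intro g
    simp only [p]
    rw [Polynomial.map_prod]
    conv_rhs => rw [← hperm g]
    rw [Finset.prod_image (fun a _ b _ h => (s g).injective h)]
    refine Finset.prod_congr rfl fun y _ => ?_
    simp
  have hplift : p ∈ Polynomial.lifts (algebraMap K0 k) := by
    rw [Polynomial.lifts_iff_coeff_lifts]
    intro n
    refine ⟨⟨p.coeff n, ?_⟩, rfl⟩
    rw [hK0, IntermediateField.mem_fixedField_iff]
    rintro _ ⟨g, rfl⟩
    have := congrArg (fun q : Polynomial k => q.coeff n) (hpfix g)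
    simpa [Polynomial.coeff_map] using this
  obtain ⟨p0, hp0⟩ := (Polynomial.mem_lifts _).1 hplift
  have hpm : p.Monic := Polynomial.monic_prod_of_monic _ _ (fun y _ => Polynomial.monic_X_sub_C y)
  have hp0ne : p0 ≠ 0 := by
    rintro rfl
    rw [Polynomial.map_zero] at hp0
    exact hpm.ne_zero hp0.symm
  have hroot : Polynomial.aeval x p0 = 0 := by
    rw [Polynomial.aeval_def, ← Polynomial.eval_map, hp0]
    simp only [p]
    rw [Polynomial.eval_prod]
    have h1 : x ∈ O := by
      have := hO 1
      rwa [map_one, AlgEquiv.one_apply] at this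
    exact Finset.prod_eq_zero h1 (by simp)
  have hdeg : p0.natDegree ≤ H.index := by
    rw [← Polynomial.natDegree_map (algebraMap K0 k), hp0]
    simp only [p]
    rw [Polynomial.natDegree_prod_of_monic _ _ (fun y _ => Polynomial.monic_X_sub_C y)]
    simp only [Polynomial.natDegree_X_sub_C, Finset.sum_const, smul_eq_mul, mul_one]
    refine Finset.card_image_le.trans ?_
    rw [Finset.card_univ, ← Nat.card_eq_fintype_card]
    exact le_rfl
  exact (Polynomial.natDegree_le_of_dvd (minpoly.dvd _ _ hroot) hp0ne).trans hdeg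

end

end Pool.Agent.K6.H72.FD
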