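import Mathlib

/-!
The linear automorphisms commuting with a nondegenerate homogeneous map of degree at least two form
a finite group.
-/

namespace Pool.Agent.K6.H72.FD

noncomputable section

variable {V : Type} [NormedAddCommGroup V] [NormedSpace ℂ V] [FiniteDimensional ℂ V]

theorem growth_bounds {d : ℕ} (hd : 2 ≤ d) {F : V → V} (hc : Continuous F)
    (hh : ∀ (c : ℂ) v, F (c • v) = c ^ d • F v) (hz : ∀ v, F v = 0 → v = 0) :
    ∃ c1 > 0, ∃ C2 > 0, ∀ v, c1 * ‖v‖ ^ d ≤ ‖F v‖ ∧ ‖F v‖ ≤ C2 * ‖v‖ ^ d := by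
  have hproper : ProperSpace V := FiniteDimensional.proper ℂ V
  have hF0 : F 0 = 0 := by
    have := hh 0 0
    rwa [zero_smul, zero_pow (by omega), zero_smul] at this
  rcases subsingleton_or_nontrivial V with hs | hs
  · refine ⟨1, one_pos, 1, one_pos, fun v => ?_⟩
    have : v = 0 := Subsingleton.elim _ _
    subst this
    rw [hF0, norm_zero, zero_pow (by omega)]
    simp
  have hK : IsCompact (Metric.sphere (0 : V) 1) := isCompact_sphere _ _
  have hne : (Metric.sphere (0 : V) 1).Nonempty := by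
    obtain ⟨x, hx⟩ := exists_ne (0 : V)
    refine ⟨((‖x‖ : ℂ)⁻¹) • x, ?_⟩
    rw [mem_sphere_zero_iff_norm, norm_smul, norm_inv, Complex.norm_real, norm_norm,
      inv_mul_cancel₀ (norm_ne_zero_iff.2 hx)]
  obtain ⟨a, ha, hamin⟩ := hK.exists_isMinOn hne hc.norm.continuousOn
  obtain ⟨b, hb, hbmax⟩ := hK.exists_isMaxOn hne hc.norm.continuousOn
  have ha0 : a ≠ 0 := by
    rintro rfl
    simp at ha
  have hpos : 0 < ‖F a‖ := norm_pos_iff.2 (fun h => ha0 (hz a h))
  have hpos' : 0 < ‖F b‖ := lt_of_lt_of_le hpos (hamin hb)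
  refine ⟨‖F a‖, hpos, ‖F b‖, hpos', fun v => ?_⟩
  by_cases hv : v = 0
  · subst hv
    rw [hF0, norm_zero, zero_pow (by omega)]
    simp
  have hvn : 0 < ‖v‖ := norm_pos_iff.2 hv
  set u : V := ((‖v‖ : ℂ)⁻¹) • v with hu
  have hus : u ∈ Metric.sphere (0 : V) 1 := by
    rw [mem_sphere_zero_iff_norm, hu, norm_smul, norm_inv, Complex.norm_real, norm_norm,
      inv_mul_cancel₀ hvn.ne']
  have hvu : v = (‖v‖ : ℂ) • u := by
    rw [hu, smul_smul, mul_inv_cancel₀ (by exact_mod_cast hvn.ne'), one_smul]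
  have hFv : ‖F v‖ = ‖F u‖ * ‖v‖ ^ d := by
    conv_lhs => rw [hvu]
    rw [hh, norm_smul, norm_pow, Complex.norm_real, norm_norm, mul_comm]
  rw [hFv]
  exact ⟨mul_le_mul_of_nonneg_right (hamin hus) (by positivity),
    mul_le_mul_of_nonneg_right (hbmax hus) (by positivity)⟩

/-- The group of invertible linear maps commuting with `F`. -/
def autGrp (F : V → V) : Subgroup (V →L[ℂ] V)ˣ where
  carrier := {T | ∀ v, F ((T : V →L[ℂ] V) v) = (T : V →L[ℂ] V) (F v)}
  mul_mem' {a b} ha hb v := by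
    simp only [Set.mem_setOf_eq] at ha hb
    rw [Units.val_mul, ContinuousLinearMap.mul_apply, ContinuousLinearMap.mul_apply, ha, hb]
  one_mem' v := by simp
  inv_mem' {a} ha v := by
    simp only [Set.mem_setOf_eq] at ha
    have h1 : ∀ w, (a : V →L[ℂ] V) (((a⁻¹ : (V →L[ℂ] V)ˣ) : V →L[ℂ] V) w) = w := fun w => by
      rw [← ContinuousLinearMap.mul_apply, Units.mul_inv]; rfl
    have h2 : ∀ w, ((a⁻¹ : (V →L[ℂ] V)ˣ) : V →L[ℂ] V) ((a : V →L[ℂ] V) w) = w := fun w => by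
      rw [← ContinuousLinearMap.mul_apply, Units.inv_mul]; rfl
    have h3 := ha (((a⁻¹ : (V →L[ℂ] V)ˣ) : V →L[ℂ] V) v)
    rw [h1] at h3
    rw [h3, h2]

theorem mem_autGrp {F : V → V} {T : (V →L[ℂ] V)ˣ} :
    T ∈ autGrp F ↔ ∀ v, F ((T : V →L[ℂ] V) v) = (T : V →L[ℂ] V) (F v) := Iff.rfl

theorem norm_bound {d : ℕ} (hd : 2 ≤ d) {F : V → V} (hc : Continuous F)
    (hh : ∀ (c : ℂ) v, F (c • v) = c ^ d • F v) (hz : ∀ v, F v = 0 → v = 0) :
    ∃ R : ℝ, 1 ≤ R ∧ ∀ T ∈ autGrp F, ‖(T : V →L[ℂ] V)‖ ≤ R := by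
  obtain ⟨c1, hc1, C2, hC2, hb⟩ := growth_bounds hd hc hh hz
  refine ⟨max 1 (2 ^ d * C2 / c1), le_max_left _ _, fun T hT => ?_⟩
  set M := ‖(T : V →L[ℂ] V)‖ with hM
  by_cases hM1 : M ≤ 1
  · exact hM1.trans (le_max_left _ _)
  push Not at hM1
  obtain ⟨x, hx1, hx2⟩ := ContinuousLinearMap.exists_lt_apply_of_lt_opNorm (T : V →L[ℂ] V)
    (show M / 2 < ‖(T : V →L[ℂ] V)‖ by rw [← hM]; linarith)
  have h1 : c1 * (M / 2) ^ d ≤ M * C2 := by
    calc c1 * (M / 2) ^ d ≤ c1 * ‖(T : V →L[ℂ] V) x‖ ^ d := by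
          apply mul_le_mul_of_nonneg_left _ hc1.le
          exact pow_le_pow_left₀ (by linarith) hx2.le _
      _ ≤ ‖F ((T : V →L[ℂ] V) x)‖ := (hb _).1
      _ = ‖(T : V →L[ℂ] V) (F x)‖ := by rw [hT x]
      _ ≤ M * ‖F x‖ := ContinuousLinearMap.le_opNorm _ _
      _ ≤ M * (C2 * ‖x‖ ^ d) := mul_le_mul_of_nonneg_left (hb _).2 (by linarith)
      _ ≤ M * (C2 * 1) := by
          apply mul_le_mul_of_nonneg_left _ (by linarith)
          apply mul_le_mul_of_nonneg_left _ hC2.le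
          exact pow_le_one₀ (norm_nonneg _) hx1.le
      _ = M * C2 := by ring
  refine le_trans ?_ (le_max_right _ _)
  rw [le_div_iff₀ hc1]
  have h2 : M ^ 2 ≤ M ^ d := pow_le_pow_right₀ hM1.le hd
  have h3 : c1 * M ^ d ≤ M * C2 * 2 ^ d := by
    have : c1 * M ^ d = (c1 * (M / 2) ^ d) * 2 ^ d := by
      rw [div_pow]
      field_simp
    rw [this]
    exact mul_le_mul_of_nonneg_right h1 (by positivity)
  have h4 : M * (M * c1) ≤ M * (2 ^ d * C2) := by
    calc M * (M * c1) = c1 * M ^ 2 := by ring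
      _ ≤ c1 * M ^ d := mul_le_mul_of_nonneg_left h2 hc1.le
      _ ≤ M * C2 * 2 ^ d := h3
      _ = M * (2 ^ d * C2) := by ring
  exact le_of_mul_le_mul_left h4 (by linarith)

/-- Eigenvalues are roots of unity of bounded order. -/
theorem eig_root {d : ℕ} (hd : 2 ≤ d) {F : V → V}
    (hh : ∀ (c : ℂ) v, F (c • v) = c ^ d • F v) (hz : ∀ v, F v = 0 → v = 0)
    {T : (V →L[ℂ] V)ˣ} (hT : T ∈ autGrp F) {μ : ℂ} {v : V} (hv : v ≠ 0)
    (hμ : (T : V →L[ℂ] V) v = μ • v) : μ ^ (d ^ Module.finrank ℂ V).factorial = 1 := by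
  classical
  have hμ0 : μ ≠ 0 := by
    rintro rfl
    rw [zero_smul] at hμ
    apply hv
    have h2 : ((T⁻¹ : (V →L[ℂ] V)ˣ) : V →L[ℂ] V) ((T : V →L[ℂ] V) v) = v := by
      rw [← ContinuousLinearMap.mul_apply, Units.inv_mul]; rfl
    rw [← h2, hμ, map_zero]
  let T' : Module.End ℂ V := ((T : V →L[ℂ] V) : V →ₗ[ℂ] V)
  have hev : ∀ r : ℕ, T'.HasEigenvalue (μ ^ d ^ r) := by
    have : ∀ r : ℕ, ∃ w : V, w ≠ 0 ∧ (T : V →L[ℂ] V) w = (μ ^ d ^ r) • w := by
      intro r
      induction r with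
      | zero => exact ⟨v, hv, by simpa using hμ⟩
      | succ r ih =>
        obtain ⟨w, hw, hw2⟩ := ih
        refine ⟨F w, fun h => hw (hz w h), ?_⟩
        rw [← hT w, hw2, hh, ← pow_mul, pow_succ]
    intro r
    obtain ⟨w, hw, hw2⟩ := this r
    exact Module.End.hasEigenvalue_of_hasEigenvector ⟨Module.End.mem_eigenspace_iff.2 hw2, hw⟩
  have hfin : {x : ℂ | T'.HasEigenvalue x}.Finite := Module.End.finite_hasEigenvalue T'
  have hcard : hfin.toFinset.card ≤ Module.finrank ℂ V := by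
    have h1 : iSupIndep T'.eigenspace := T'.eigenspaces_iSupIndep
    have := h1.fintypeNeBotOfFiniteDimensional
    refine le_trans ?_ h1.subtype_ne_bot_le_finrank
    rw [← Set.ncard_eq_toFinset_card _ hfin, ← Nat.card_coe_set_eq, Nat.card_eq_fintype_card.symm]
    exact le_of_eq rfl
  obtain ⟨i, hi, j, hj, hij, he⟩ := Finset.exists_ne_map_eq_of_card_lt_of_maps_to
    (s := Finset.range (Module.finrank ℂ V + 1)) (t := hfin.toFinset)
    (by rw [Finset.card_range]; omega) (f := fun r => μ ^ d ^ r)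
    (fun r _ => by simpa using hev r)
  rw [Finset.mem_range] at hi hj
  have main : ∀ i j : ℕ, i < j → j ≤ Module.finrank ℂ V → μ ^ d ^ i = μ ^ d ^ j →
      μ ^ (d ^ Module.finrank ℂ V).factorial = 1 := by
    intro i j hij hj he
    have hlt : d ^ i < d ^ j := Nat.pow_lt_pow_right (by omega) hij
    have hle : d ^ j ≤ d ^ Module.finrank ℂ V := Nat.pow_le_pow_right (by omega) hj
    have h1 : μ ^ (d ^ j - d ^ i) = 1 := by
      have h2 : μ ^ (d ^ j - d ^ i) * μ ^ d ^ i = μ ^ d ^ i := by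
        rw [← pow_add, Nat.sub_add_cancel hlt.le, he]
      exact mul_right_cancel₀ (pow_ne_zero _ hμ0) (by rw [h2, one_mul])
    obtain ⟨q, hq⟩ := Nat.dvd_factorial (m := d ^ j - d ^ i) (n := d ^ Module.finrank ℂ V)
      (by omega) (by omega)
    rw [hq, pow_mul, h1, one_pow]
  rcases lt_or_gt_of_ne hij with h | h
  · exact main i j h (by omega) he
  · exact main j i h (by omega) he.symm

theorem iSup_eigen' (T : Module.End ℂ V)
    (h : ∀ (μ : ℂ) (x : V), ((T - μ • 1) ^ 2 : Module.End ℂ V) x = 0 → (T - μ • 1) x = 0) :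
    ⨆ μ, T.eigenspace μ = ⊤ := by
  have h1 : ∀ (μ : ℂ) (j : ℕ) (x : V), ((T - μ • 1) ^ (j + 1)) x = 0 →
      (T - μ • 1) x = 0 := by
    intro μ j
    induction j with
    | zero => intro x hx; simpa using hx
    | succ j ih =>
      intro x hx
      apply h
      rw [pow_two, Module.End.mul_apply]
      apply ih
      rw [pow_succ, Module.End.mul_apply] at hx
      exact hx
  rw [eq_top_iff, ← Module.End.iSup_maxGenEigenspace_eq_top T]
  apply iSup_mono
  intro μ x hx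
  rw [Module.End.mem_maxGenEigenspace] at hx
  obtain ⟨j, hj⟩ := hx
  rw [Module.End.mem_eigenspace_iff, ← sub_eq_zero]
  have h2 := h1 μ j x (by rw [pow_succ', Module.End.mul_apply, hj, map_zero])
  rw [← h2]
  simp

theorem pow_eq_one {d : ℕ} (hd : 2 ≤ d) {F : V → V} (hc : Continuous F)
    (hh : ∀ (c : ℂ) v, F (c • v) = c ^ d • F v) (hz : ∀ v, F v = 0 → v = 0)
    {T : (V →L[ℂ] V)ˣ} (hT : T ∈ autGrp F) :
    (T : V →L[ℂ] V) ^ (d ^ Module.finrank ℂ V).factorial = 1 := by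
  obtain ⟨R, hR1, hR⟩ := norm_bound hd hc hh hz
  set m := (d ^ Module.finrank ℂ V).factorial with hm
  have hmpos : 0 < m := Nat.factorial_pos _
  let T' : Module.End ℂ V := ((T : V →L[ℂ] V) : V →ₗ[ℂ] V)
  have hss : ⨆ μ, T'.eigenspace μ = ⊤ := by
    apply iSup_eigen'
    intro μ x hx
    by_contra hne
    set y : V := (T' - μ • (1 : Module.End ℂ V)) x with hy
    have hTy : (T : V →L[ℂ] V) y = μ • y := by
      rw [pow_two, Module.End.mul_apply, ← hy, LinearMap.sub_apply] at hx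
      exact sub_eq_zero.1 hx
    have hTx : (T : V →L[ℂ] V) x = μ • x + y := by
      rw [hy, LinearMap.sub_apply]
      simp [T']
    have hμm := eig_root hd hh hz hT hne hTy
    rw [← hm] at hμm
    have hμn : ‖μ‖ = 1 := by
      have h1 : ‖μ‖ ^ m = 1 := by rw [← norm_pow, hμm, norm_one]
      exact (pow_eq_one_iff_of_nonneg (norm_nonneg _) hmpos.ne').1 h1
    have hμ0 : μ ≠ 0 := by
      rintro rfl
      simp at hμn
    have hpow : ∀ r : ℕ, ((T : V →L[ℂ] V) ^ r) x = μ ^ r • x + (r * μ ^ (r - 1) : ℂ) • y := by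
      intro r
      induction r with
      | zero => simp
      | succ r ih =>
        rw [pow_succ', ContinuousLinearMap.mul_apply, ih, map_add, map_smul, map_smul, hTx, hTy]
        rcases r with _ | r
        · simp
        · simp only [Nat.add_sub_cancel, smul_add, smul_smul]
          push_cast
          rw [pow_succ μ (r + 1), pow_succ μ r]
          module
    have hyn : 0 < ‖y‖ := norm_pos_iff.2 hne
    obtain ⟨r, hr⟩ := exists_nat_gt ((R * ‖x‖ + ‖x‖) / ‖y‖)
    rw [div_lt_iff₀ hyn] at hr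
    have h1 : ‖((T : V →L[ℂ] V) ^ r) x‖ ≤ R * ‖x‖ := by
      refine (ContinuousLinearMap.le_opNorm _ _).trans ?_
      apply mul_le_mul_of_nonneg_right _ (norm_nonneg _)
      have := hR (T ^ r) (Subgroup.pow_mem _ hT r)
      rwa [Units.val_pow_eq_pow_val] at this
    have h2 : ‖(r * μ ^ (r - 1) : ℂ) • y‖ = r * ‖y‖ := by
      rw [norm_smul, norm_mul, norm_pow, hμn, one_pow, mul_one, Complex.norm_natCast]
    have h3 : ‖(r * μ ^ (r - 1) : ℂ) • y‖ ≤ ‖((T : V →L[ℂ] V) ^ r) x‖ + ‖x‖ := by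
      have h4 : (r * μ ^ (r - 1) : ℂ) • y = ((T : V →L[ℂ] V) ^ r) x - μ ^ r • x := by
        rw [hpow]; abel
      rw [h4]
      refine (norm_sub_le _ _).trans ?_
      rw [norm_smul, norm_pow, hμn, one_pow, one_mul]
    rw [h2] at h3
    linarith
  ext v
  have hv : v ∈ ⨆ μ, T'.eigenspace μ := by rw [hss]; trivial
  rw [ContinuousLinearMap.one_apply]
  refine Submodule.iSup_induction (fun μ => T'.eigenspace μ)
    (motive := fun v => ((T : V →L[ℂ] V) ^ m) v = v) hv ?_ ?_ ?_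
  · intro μ x hx
    have hx2 : (T : V →L[ℂ] V) x = μ • x := Module.End.mem_eigenspace_iff.1 hx
    by_cases hx0 : x = 0
    · rw [hx0, map_zero]
    have hμm := eig_root hd hh hz hT hx0 hx2
    rw [← hm] at hμm
    have hpow : ∀ r : ℕ, ((T : V →L[ℂ] V) ^ r) x = μ ^ r • x := by
      intro r
      induction r with
      | zero => simp
      | succ r ih =>
        rw [pow_succ', ContinuousLinearMap.mul_apply, ih, map_smul, hx2, smul_smul, pow_succ]
    rw [hpow, hμm, one_smul]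
  · rw [map_zero]
  · intro x y hx hy
    rw [map_add, hx, hy]

theorem fin_aut {d : ℕ} (hd : 2 ≤ d) {F : V → V} (hc : Continuous F)
    (hh : ∀ (c : ℂ) v, F (c • v) = c ^ d • F v) (hz : ∀ v, F v = 0 → v = 0) :
    (autGrp F : Set (V →L[ℂ] V)ˣ).Finite := by
  obtain ⟨R, hR1, hR⟩ := norm_bound hd hc hh hz
  set m := (d ^ Module.finrank ℂ V).factorial with hm
  have hmpos : 0 < m := Nat.factorial_pos _
  have hmR : (1 : ℝ) ≤ m := by exact_mod_cast hmpos
  have hR0 : 0 < R := by linarith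
  -- an element close to one is one
  have hsep : ∀ E ∈ autGrp F, ‖(E : V →L[ℂ] V) - 1‖ < 1 / (m * R) → E = 1 := by
    intro E hE hlt
    have hEm : (E : V →L[ℂ] V) ^ m = 1 := pow_eq_one hd hc hh hz hE
    have hEi : ∀ i : ℕ, ‖(E : V →L[ℂ] V) ^ i‖ ≤ R := by
      intro i
      have := hR (E ^ i) (Subgroup.pow_mem _ hE i)
      rwa [Units.val_pow_eq_pow_val] at this
    set δ := ‖(E : V →L[ℂ] V) - 1‖ with hδ
    have hδ0 : 0 ≤ δ := norm_nonneg _
    have hi1 : ∀ i : ℕ, ‖(E : V →L[ℂ] V) ^ i - 1‖ ≤ i * (R * δ) := by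
      intro i
      induction i with
      | zero => simp
      | succ i ih =>
        have h1 : (E : V →L[ℂ] V) ^ (i + 1) - 1 =
            (E : V →L[ℂ] V) ^ i * ((E : V →L[ℂ] V) - 1) + ((E : V →L[ℂ] V) ^ i - 1) := by
          rw [pow_succ]; noncomm_ring
        rw [h1]
        refine (norm_add_le _ _).trans ?_
        have h2 : ‖(E : V →L[ℂ] V) ^ i * ((E : V →L[ℂ] V) - 1)‖ ≤ R * δ :=
          (norm_mul_le _ _).trans (mul_le_mul_of_nonneg_right (hEi i) hδ0)
        push_cast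
        linarith
    let S : V →L[ℂ] V := ∑ i ∈ Finset.range m, (E : V →L[ℂ] V) ^ i
    have hS : S * ((E : V →L[ℂ] V) - 1) = 0 := by
      simp only [S]
      rw [geom_sum_mul, hEm, sub_self]
    have hSm : ‖(m : ℂ) • (1 : V →L[ℂ] V) - S‖ ≤ m * ((m - 1) * (R * δ)) := by
      have h1 : (m : ℂ) • (1 : V →L[ℂ] V) - S =
          ∑ i ∈ Finset.range m, (1 - (E : V →L[ℂ] V) ^ i) := by
        rw [Finset.sum_sub_distrib, Finset.sum_const, Finset.card_range]
        simp only [S]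
        congr 1
        rw [Nat.cast_smul_eq_nsmul]
      rw [h1]
      refine (norm_sum_le _ _).trans ?_
      refine (Finset.sum_le_card_nsmul _ _ ((m - 1) * (R * δ)) ?_).trans ?_
      · intro i hi
        rw [norm_sub_rev]
        refine (hi1 i).trans ?_
        apply mul_le_mul_of_nonneg_right _ (by positivity)
        have : i + 1 ≤ m := by
          have := Finset.mem_range.1 hi
          omega
        have : (i : ℝ) + 1 ≤ m := by exact_mod_cast this
        linarith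
      · rw [Finset.card_range, nsmul_eq_mul]
    have hlt2 : m * ((m - 1) * (R * δ)) < m := by
      have h1 : R * δ < 1 / m := by
        rw [lt_div_iff₀ (by positivity)] at hlt ⊢
        linarith
      have h2 : (m - 1) * (R * δ) ≤ (m - 1) * (1 / m) :=
        mul_le_mul_of_nonneg_left h1.le (by linarith)
      have h3 : ((m : ℝ) - 1) * (1 / m) < 1 := by
        rw [mul_one_div, div_lt_one (by positivity)]
        linarith
      calc m * ((m - 1) * (R * δ)) < m * 1 := by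
            apply mul_lt_mul_of_pos_left (lt_of_le_of_lt h2 h3) (by positivity)
        _ = m := mul_one _
    have hzero : ∀ v, ((E : V →L[ℂ] V) - 1) v = 0 := by
      intro v
      by_contra hne
      set y := ((E : V →L[ℂ] V) - 1) v with hy
      have hyn : 0 < ‖y‖ := norm_pos_iff.2 hne
      have hSy : S y = 0 := by
        have h0 := congrArg (fun f : V →L[ℂ] V => f v) hS
        exact h0
      have h1 : ((m : ℂ) • (1 : V →L[ℂ] V) - S) y = (m : ℂ) • y := by
        rw [ContinuousLinearMap.sub_apply, hSy, sub_zero]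
        simp
      have h2 := ContinuousLinearMap.le_opNorm ((m : ℂ) • (1 : V →L[ℂ] V) - S) y
      rw [h1, norm_smul, Complex.norm_natCast] at h2
      have h3 : (m : ℝ) * ‖y‖ ≤ (m * ((m - 1) * (R * δ))) * ‖y‖ :=
        h2.trans (mul_le_mul_of_nonneg_right hSm (norm_nonneg _))
      have h4 := le_of_mul_le_mul_right h3 hyn
      linarith
    ext v
    have := hzero v
    rw [ContinuousLinearMap.sub_apply, sub_eq_zero] at this
    simpa using this
  -- bounded and separated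
  have hproper : ProperSpace (V →L[ℂ] V) := FiniteDimensional.proper ℂ _
  have hcomp : IsCompact (Metric.closedBall (0 : V →L[ℂ] V) R) := isCompact_closedBall _ _
  set ε := 1 / (m * R) / R with hε
  have hεpos : 0 < ε := by positivity
  obtain ⟨t, -, ht, hcov⟩ := hcomp.finite_cover_balls (half_pos hεpos)
  have hb : ∀ T : autGrp F, ∃ z ∈ t, ((T : (V →L[ℂ] V)ˣ) : V →L[ℂ] V) ∈ Metric.ball z (ε / 2) := by
    intro T
    have h1 : ((T : (V →L[ℂ] V)ˣ) : V →L[ℂ] V) ∈ Metric.closedBall (0 : V →L[ℂ] V) R := by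
      rw [mem_closedBall_zero_iff]
      exact hR _ T.2
    have h2 := hcov h1
    simpa using h2
  choose f hf hf' using hb
  have : Finite t := ht
  have hinj : Function.Injective (fun T : autGrp F => (⟨f T, hf T⟩ : t)) := by
    intro A B hAB
    have hAB' : f A = f B := congrArg Subtype.val hAB
    have h1 := hf' A
    have h2 := hf' B
    rw [Metric.mem_ball, dist_eq_norm] at h1 h2
    rw [hAB'] at h1
    have h3 : ‖((B : (V →L[ℂ] V)ˣ) : V →L[ℂ] V) - ((A : (V →L[ℂ] V)ˣ) : V →L[ℂ] V)‖ < ε := by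
      have h4 : ((B : (V →L[ℂ] V)ˣ) : V →L[ℂ] V) - ((A : (V →L[ℂ] V)ˣ) : V →L[ℂ] V) =
          (((B : (V →L[ℂ] V)ˣ) : V →L[ℂ] V) - f B) - (((A : (V →L[ℂ] V)ˣ) : V →L[ℂ] V) - f B) := by
        abel
      rw [h4]
      refine lt_of_le_of_lt (norm_sub_le _ _) ?_
      linarith
    have h5 : (A⁻¹ * B : autGrp F) = 1 := by
      apply Subtype.ext
      apply hsep _ (A⁻¹ * B).2
      have h6 : (((A⁻¹ * B : autGrp F) : (V →L[ℂ] V)ˣ) : V →L[ℂ] V) - 1 =
          (((A⁻¹ : autGrp F) : (V →L[ℂ] V)ˣ) : V →L[ℂ] V) *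
          (((B : (V →L[ℂ] V)ˣ) : V →L[ℂ] V) - ((A : (V →L[ℂ] V)ˣ) : V →L[ℂ] V)) := by
        rw [mul_sub]
        congr 1
        rw [Subgroup.coe_inv, Units.inv_mul]
      rw [h6]
      refine lt_of_le_of_lt (norm_mul_le _ _) ?_
      calc ‖(((A⁻¹ : autGrp F) : (V →L[ℂ] V)ˣ) : V →L[ℂ] V)‖ *
          ‖((B : (V →L[ℂ] V)ˣ) : V →L[ℂ] V) - ((A : (V →L[ℂ] V)ˣ) : V →L[ℂ] V)‖
          ≤ R * ‖((B : (V →L[ℂ] V)ˣ) : V →L[ℂ] V) - ((A : (V →L[ℂ] V)ˣ) : V →L[ℂ] V)‖ :=
            mul_le_mul_of_nonneg_right (hR _ (A⁻¹).2) (norm_nonneg _)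
        _ < R * ε := mul_lt_mul_of_pos_left h3 hR0
        _ = 1 / (m * R) := by rw [hε]; field_simp
    exact (inv_mul_eq_one.1 h5)
  exact Finite.of_injective _ hinj

end

end Pool.Agent.K6.H72.FD
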