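import Mathlib

/-!
Descent of the coefficients along a torus.
-/

namespace Pool.Agent.K6.H72.FD

noncomputable section

theorem exists_zsmul {k : Type} [Field k] [IsAlgClosed k] (a : Additive kˣ) {n : ℤ}
    (hn : n ≠ 0) : ∃ b : Additive kˣ, n • b = a := by
  obtain ⟨z, hz⟩ := IsAlgClosed.exists_pow_nat_eq (a.toMul : k) (Int.natAbs_pos.2 hn)
  have hz0 : z ≠ 0 := by
    rintro rfl
    rw [zero_pow (Int.natAbs_pos.2 hn).ne'] at hz
    exact (Units.ne_zero _) hz.symm
  have h1 : (Units.mk0 z hz0) ^ n.natAbs = a.toMul := by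
    ext
    exact hz
  rcases lt_or_gt_of_ne hn with h | h
  · refine ⟨Additive.ofMul (Units.mk0 z hz0)⁻¹, ?_⟩
    have h2 : n = -(n.natAbs : ℤ) := by omega
    apply Additive.toMul.injective
    rw [toMul_zsmul, toMul_ofMul, h2, zpow_neg, zpow_natCast, inv_pow, inv_inv, h1]
  · refine ⟨Additive.ofMul (Units.mk0 z hz0), ?_⟩
    have h2 : n = (n.natAbs : ℤ) := by omega
    apply Additive.toMul.injective
    rw [toMul_zsmul, toMul_ofMul, h2, zpow_natCast, h1]

/-- The unit group of an algebraically closed field is divisible. -/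
def divUnits (k : Type) [Field k] [IsAlgClosed k] : DivisibleBy (Additive kˣ) ℤ where
  div a n := if h : n = 0 then 0 else Classical.choose (exists_zsmul a h)
  div_zero a := by simp
  div_cancel {n} a hn := by
    rw [dif_neg hn]
    exact Classical.choose_spec (exists_zsmul a hn)

theorem prod_zpow_sum {A : Type} [CommGroup A] {I : Type} (s : Finset I) (a : A) (f : I → ℤ) :
    ∏ i ∈ s, a ^ f i = a ^ ∑ i ∈ s, f i := by
  classical
  induction s using Finset.induction_on with
  | empty => simp
  | insert i s hi ih => rw [Finset.prod_insert hi, Finset.sum_insert hi, ih, zpow_add]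

theorem toMul_lincomb {k : Type} [Field k] {I : Type} [Fintype I] (c : I → kˣ) (u : I → ℤ) :
    (Fintype.linearCombination ℤ (fun i => Additive.ofMul (c i)) u).toMul = ∏ i, c i ^ u i := by
  rw [Fintype.linearCombination_apply]
  rw [toMul_sum]
  simp [toMul_zsmul]

theorem torus {k : Type} [Field k] [IsAlgClosed k] {n : ℕ} {I : Type} [Fintype I]
    (c : I → kˣ) (w : I → Fin n → ℤ) :
    ∃ (τ : Fin n → kˣ) (u : I → I → ℤ), (∀ i, c i * ∏ j, τ j ^ w i j = ∏ i', c i' ^ u i i') ∧
      ∀ i, ∑ i', u i i' • w i' = 0 := by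
  classical
  let C : (I → ℤ) →ₗ[ℤ] Additive kˣ :=
    Fintype.linearCombination ℤ (fun i => Additive.ofMul (c i))
  let π : (I → ℤ) →ₗ[ℤ] (Fin n → ℤ) := Fintype.linearCombination ℤ w
  obtain ⟨ψ, hψ⟩ := Module.projective_lifting_property π.rangeRestrict
    (LinearMap.id : LinearMap.range π →ₗ[ℤ] LinearMap.range π) π.surjective_rangeRestrict
  let _ := divUnits k
  obtain ⟨t, ht⟩ := (Module.Baer.of_divisible (Additive kˣ)).extension_property
    (LinearMap.range π).subtype (Submodule.subtype_injective _) (-(C ∘ₗ ψ))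
  have hπw : ∀ i, π (Pi.single i 1) = w i := by
    intro i
    simp only [π]
    rw [Fintype.linearCombination_apply_single, one_smul]
  have hCc : ∀ i, C (Pi.single i 1) = Additive.ofMul (c i) := by
    intro i
    simp only [C]
    rw [Fintype.linearCombination_apply_single, one_smul]
  have htv : ∀ v : Fin n → ℤ, (t v).toMul = ∏ j, (t (Pi.single j 1)).toMul ^ v j := by
    intro v
    conv_lhs => rw [pi_eq_sum_univ' v]
    rw [map_sum, toMul_sum]
    refine Finset.prod_congr rfl fun j _ => ?_
    rw [map_smul, toMul_zsmul]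
  refine ⟨fun j => (t (Pi.single j 1)).toMul,
    fun i => Pi.single i 1 - ψ (π.rangeRestrict (Pi.single i 1)), fun i => ?_, fun i => ?_⟩
  · rw [← htv, ← toMul_lincomb]
    have h1 := LinearMap.congr_fun ht (π.rangeRestrict (Pi.single i 1))
    simp only [LinearMap.comp_apply, Submodule.subtype_apply, LinearMap.neg_apply] at h1
    have h2 : ((π.rangeRestrict (Pi.single i 1) : LinearMap.range π) : Fin n → ℤ) = w i := hπw i
    rw [h2] at h1
    rw [h1]
    change _ = (C (Pi.single i 1 - ψ (π.rangeRestrict (Pi.single i 1)))).toMul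
    rw [map_sub, hCc, toMul_sub, toMul_neg, toMul_ofMul, div_eq_mul_inv]
  · change π (Pi.single i 1 - ψ (π.rangeRestrict (Pi.single i 1))) = 0
    rw [map_sub, sub_eq_zero]
    have h1 := LinearMap.congr_fun hψ (π.rangeRestrict (Pi.single i 1))
    exact (congrArg Subtype.val h1).symm

/-- The twisted coefficients are fixed by every automorphism which acts through a torus. -/
theorem torus_fixed {k : Type} [Field k] [IsAlgClosed k] {n : ℕ} {I : Type} [Finite I]
    (c : I → kˣ) (w : I → Fin n → ℤ) :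
    ∃ τ : Fin n → kˣ, ∀ (σ : k ≃+* k) (D : Fin n → kˣ),
      (∀ i, σ (c i) = c i * ((∏ j, D j ^ w i j : kˣ) : k)) →
      ∀ i, σ ((c i * ∏ j, τ j ^ w i j : kˣ) : k) = ((c i * ∏ j, τ j ^ w i j : kˣ) : k) := by
  classical
  have := Fintype.ofFinite I
  obtain ⟨τ, u, h1, h2⟩ := torus c w
  refine ⟨τ, fun σ D hσ i => ?_⟩
  rw [h1]
  let σ' : kˣ →* kˣ := Units.map (σ : k →* k)
  have h3 : ∀ i, σ' (c i) = c i * ∏ j, D j ^ w i j := by
    intro i
    ext
    exact hσ i
  have h4 : σ' (∏ i', c i' ^ u i i') = ∏ i', c i' ^ u i i' := by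
    rw [map_prod]
    simp_rw [map_zpow, h3, mul_zpow]
    rw [Finset.prod_mul_distrib]
    have h5 : ∏ i', (∏ j, D j ^ w i' j) ^ u i i' = 1 := by
      simp_rw [← Finset.prod_zpow, ← zpow_mul]
      rw [Finset.prod_comm]
      apply Finset.prod_eq_one
      intro j _
      rw [prod_zpow_sum]
      have h6 := congrFun (h2 i) j
      simp only [Finset.sum_apply, Pi.smul_apply, smul_eq_mul, Pi.zero_apply] at h6
      have h7 : ∑ i', w i' j * u i i' = 0 := by
        rw [← h6]
        exact Finset.sum_congr rfl fun _ _ => mul_comm _ _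
      rw [h7, zpow_zero]
    rw [h5, mul_one]
  exact congrArg Units.val h4

end

end Pool.Agent.K6.H72.FD
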