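import Pool.Agent.K6.H72.FD.Lines
import Pool.Agent.K6.H72.FD.FinAut
import Pool.Agent.K6.H72.FD.Torus
import Pool.Agent.K6.H72.FD.Degree
import Pool.Agent.Helper819.Act

/-!
The group of semilinear automorphisms of a tuple of forms.
-/

open MvPolynomial

namespace Pool.Agent.K6.H72.FD

open Pool.Agent.Helper819.Dyn

noncomputable section

section general

variable {k : Type} [Field k] {N d : ℕ}

/-- Evaluation of a tuple. -/
def ev (F : Tuple k N) (v : Fin (N + 1) → k) : Fin (N + 1) → k := fun i => eval v (F i)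

/-- Application of a ring homomorphism to the coefficients. -/
def mapT {K : Type} [Field K] (e : k →+* K) (F : Tuple k N) : Tuple K N := fun i => map e (F i)

theorem ev_conj (φ : GL (Fin (N + 1)) k) (F : Tuple k N) (v : Fin (N + 1) → k) :
    ev (conj φ F) v = (↑(φ⁻¹) : Matrix (Fin (N + 1)) (Fin (N + 1)) k).mulVec
      (ev F ((φ : Matrix (Fin (N + 1)) (Fin (N + 1)) k).mulVec v)) := by
  funext i
  simp only [ev]
  rw [conj_eval]
  rfl

theorem ev_inj [Infinite k] {F G : Tuple k N} (h : ∀ v, ev F v = ev G v) : F = G := by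
  funext i
  apply MvPolynomial.funext
  intro v
  exact congrFun (h v) i

theorem ev_smul {F : Tuple k N} (hF : ∀ i, (F i).IsHomogeneous d) (c : k)
    (v : Fin (N + 1) → k) : ev F (c • v) = c ^ d • ev F v := by
  funext i
  simp only [ev, Pi.smul_apply, smul_eq_mul]
  exact eval_smul_homog (hF i) c v

theorem ev_mapT {K : Type} [Field K] (e : k →+* K) (F : Tuple k N) (v : Fin (N + 1) → k) :
    ev (mapT e F) (e ∘ v) = e ∘ ev F v := by
  funext i
  simp only [ev, mapT, Function.comp_apply]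
  exact (MvPolynomial.map_eval e v (F i)).symm

theorem inv_mulVec (φ : GL (Fin (N + 1)) k) (v : Fin (N + 1) → k) :
    (↑(φ⁻¹) : Matrix (Fin (N + 1)) (Fin (N + 1)) k).mulVec
      ((φ : Matrix (Fin (N + 1)) (Fin (N + 1)) k).mulVec v) = v := by
  rw [Matrix.mulVec_mulVec, Units.inv_mul, Matrix.one_mulVec]

theorem mulVec_inv (φ : GL (Fin (N + 1)) k) (v : Fin (N + 1) → k) :
    (φ : Matrix (Fin (N + 1)) (Fin (N + 1)) k).mulVec
      ((↑(φ⁻¹) : Matrix (Fin (N + 1)) (Fin (N + 1)) k).mulVec v) = v := by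
  rw [Matrix.mulVec_mulVec, Units.mul_inv, Matrix.one_mulVec]

/-- The matrix of a map. -/
def mat (g : (Fin (N + 1) → k) → (Fin (N + 1) → k)) : Matrix (Fin (N + 1)) (Fin (N + 1)) k :=
  fun i j => g (Pi.single j 1) i

theorem mat_spec {g : (Fin (N + 1) → k) → (Fin (N + 1) → k)} (σ : k →+* k)
    (h1 : ∀ v w, g (v + w) = g v + g w) (h2 : ∀ (c : k) v, g (c • v) = σ c • g v)
    (v : Fin (N + 1) → k) : g v = (mat g).mulVec (σ ∘ v) := by
  have h0 : g 0 = 0 := by
    have := h2 0 0
    rwa [zero_smul, map_zero, zero_smul] at this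
  let g' : (Fin (N + 1) → k) →+ (Fin (N + 1) → k) :=
    { toFun := g, map_zero' := h0, map_add' := h1 }
  have h3 : g v = ∑ j, σ (v j) • g (Pi.single j 1) := by
    conv_lhs => rw [pi_eq_sum_univ' v]
    change g' _ = _
    rw [map_sum]
    refine Finset.sum_congr rfl fun j _ => ?_
    change g (v j • _) = _
    rw [h2]
  rw [h3]
  funext i
  simp only [Finset.sum_apply, Pi.smul_apply, smul_eq_mul, Matrix.mulVec, dotProduct, mat,
    Function.comp_apply]
  exact Finset.sum_congr rfl fun _ _ => mul_comm _ _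

theorem coeff_scale (D : Fin (N + 1) → k) (p : MvPolynomial (Fin (N + 1)) k)
    (m : Fin (N + 1) →₀ ℕ) :
    coeff m (bind₁ (fun j => C (D j) * X j) p) = (∏ j, D j ^ m j) * coeff m p := by
  classical
  induction p using MvPolynomial.induction_on' with
  | monomial u a =>
    have h1 : bind₁ (fun j => C (D j) * X j) (monomial u a) =
        monomial u ((∏ j, D j ^ u j) * a) := by
      rw [bind₁_monomial]
      simp_rw [mul_pow]
      rw [Finset.prod_mul_distrib, monomial_eq, C_mul, map_prod]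
      have h2 : ∏ j ∈ u.support, (C (D j) : MvPolynomial (Fin (N + 1)) k) ^ u j =
          ∏ j, C (D j ^ u j) := by
        rw [← Finset.prod_subset (Finset.subset_univ u.support)]
        · exact Finset.prod_congr rfl fun _ _ => (map_pow C _ _).symm
        · intro j _ hj
          rw [Finsupp.notMem_support_iff.1 hj, pow_zero, map_one]
      rw [h2, Finsupp.prod]
      ring
    rw [h1, coeff_monomial, coeff_monomial]
    split_ifs with h
    · rw [h]
    · rw [mul_zero]
  | add p q hp hq => rw [map_add, coeff_add, coeff_add, hp, hq, mul_add]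

end general

section grp

variable {k : Type} [Field k] [Algebra ℚ k] {N : ℕ}

/-- The pairs `(σ, g)` with `g` a `σ`-semilinear bijection commuting with `F`. -/
def semiGrp (F : Tuple k N) : Subgroup ((k ≃ₐ[ℚ] k) × Equiv.Perm (Fin (N + 1) → k)) where
  carrier := {p | (∀ v w, p.2 (v + w) = p.2 v + p.2 w) ∧
    (∀ (c : k) v, p.2 (c • v) = p.1 c • p.2 v) ∧ ∀ v, ev F (p.2 v) = p.2 (ev F v)}
  mul_mem' := by
    rintro ⟨a, f⟩ ⟨b, g⟩ ⟨h1, h2, h3⟩ ⟨h4, h5, h6⟩
    simp only at h1 h2 h3 h4 h5 h6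
    refine ⟨fun v w => ?_, fun c v => ?_, fun v => ?_⟩
    · simp only [Prod.mk_mul_mk, Equiv.Perm.mul_apply]
      rw [h4, h1]
    · simp only [Prod.mk_mul_mk, Equiv.Perm.mul_apply, AlgEquiv.mul_apply]
      rw [h5, h2]
    · simp only [Prod.mk_mul_mk, Equiv.Perm.mul_apply]
      rw [h3, h6]
  one_mem' := ⟨fun _ _ => rfl, fun _ _ => rfl, fun _ => rfl⟩
  inv_mem' := by
    rintro ⟨a, f⟩ ⟨h1, h2, h3⟩
    simp only at h1 h2 h3
    refine ⟨fun v w => ?_, fun c v => ?_, fun v => ?_⟩
    · simp only [Prod.inv_mk]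
      apply f.injective
      rw [h1]
      simp
    · change f.symm (c • v) = a.symm c • f.symm v
      apply f.injective
      rw [h2, AlgEquiv.apply_symm_apply, Equiv.apply_symm_apply, Equiv.apply_symm_apply]
    · simp only [Prod.inv_mk]
      apply f.injective
      rw [← h3]
      simp

variable (F : Tuple k N)

/-- The projection to the Galois group. -/
def toGal : semiGrp F →* (k ≃ₐ[ℚ] k) := (MonoidHom.fst _ _).comp (semiGrp F).subtype

/-- The semilinear representation of the group. -/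
def rep : SRep k (semiGrp F) (Fin (N + 1) → k) where
  s :=
    { toFun := fun g => (g.1.1 : k ≃+* k)
      map_one' := rfl
      map_mul' := fun _ _ => rfl }
  ρ :=
    { toFun := fun g =>
        { toFun := g.1.2
          map_zero' := by
            have h0 := g.2.2.1 0 0
            rw [map_zero g.1.1, zero_smul, zero_smul] at h0
            exact h0
          map_add' := g.2.1 }
      map_one' := rfl
      map_mul' := fun _ _ => rfl }
  semi g c v := g.2.2.1 c v

theorem rep_s_apply (g : semiGrp F) (c : k) : (rep F).s g c = g.1.1 c := rfl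

theorem rep_ρ_apply (g : semiGrp F) (v : Fin (N + 1) → k) : (rep F).ρ g v = g.1.2 v := rfl

/-- The matrix of an element of the group. -/
def gmat (g : semiGrp F) : Matrix (Fin (N + 1)) (Fin (N + 1)) k := mat g.1.2

theorem gmat_spec (g : semiGrp F) (v : Fin (N + 1) → k) :
    g.1.2 v = (gmat F g).mulVec (g.1.1 ∘ v) :=
  mat_spec ((g.1.1 : k ≃ₐ[ℚ] k) : k →+* k) g.2.1 g.2.2.1 v

theorem gmat_mul_inv (g : semiGrp F) :
    gmat F g * (gmat F g⁻¹).map g.1.1 = 1 := by
  apply Matrix.ext_of_mulVec_single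
  intro j
  rw [Matrix.one_mulVec, ← Matrix.mulVec_mulVec]
  have h1 : ∀ v : Fin (N + 1) → k, g.1.2 (g⁻¹.1.2 v) = v := fun v => by
    have : (g * g⁻¹).1.2 v = v := by rw [mul_inv_cancel]; rfl
    exact this
  have h2 := h1 (Pi.single j 1)
  rw [gmat_spec, gmat_spec] at h2
  conv_rhs => rw [← h2]
  congr 1
  funext i
  simp only [Matrix.mulVec, dotProduct, Function.comp_apply, Matrix.map_apply, map_sum, map_mul]
  refine Finset.sum_congr rfl fun l _ => ?_
  congr 1
  by_cases h : l = j
  · subst h; simp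
  · simp [Pi.single_apply, h]

/-- The invertible matrix of an element of the group. -/
def gGL (g : semiGrp F) : GL (Fin (N + 1)) k :=
  ⟨gmat F g, (gmat F g⁻¹).map g.1.1, gmat_mul_inv F g,
    mul_eq_one_comm.1 (gmat_mul_inv F g)⟩

theorem gGL_conj [Infinite k] (g : semiGrp F) :
    mapT ((g.1.1 : k ≃ₐ[ℚ] k) : k →+* k) F = conj (gGL F g) F := by
  apply ev_inj
  intro w
  rw [ev_conj]
  set v : Fin (N + 1) → k := (g.1.1).symm ∘ w with hv
  have hw : w = ((g.1.1 : k ≃ₐ[ℚ] k) : k →+* k) ∘ v := by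
    funext i
    simp [hv]
  have h1 : (gGL F g : Matrix (Fin (N + 1)) (Fin (N + 1)) k).mulVec w = g.1.2 v := by
    rw [gmat_spec, hw]
    rfl
  rw [h1, g.2.2.2 v]
  have h2 : g.1.2 (ev F v) = (gGL F g : Matrix (Fin (N + 1)) (Fin (N + 1)) k).mulVec
      (((g.1.1 : k ≃ₐ[ℚ] k) : k →+* k) ∘ (ev F v)) := by
    rw [gmat_spec]
    rfl
  rw [h2, inv_mulVec, ← ev_mapT, ← hw]

end grp

end

end Pool.Agent.K6.H72.FD
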