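import Pool.Agent.K6.H72.FD.Geo

/-!
The projection to the Galois group, and the good properties of the semilinear representation.
-/

open MvPolynomial

namespace Pool.Agent.K6.H72.FD

open Pool.Agent.Helper819.Dyn

noncomputable section

variable {k : Type} [Field k] [Algebra ℚ k] {N d : ℕ}

/-- The semilinear bijection given by an automorphism and an invertible matrix. -/
def semiPerm (σ : k ≃ₐ[ℚ] k) (A : GL (Fin (N + 1)) k) : Equiv.Perm (Fin (N + 1) → k) where
  toFun v := (A : Matrix (Fin (N + 1)) (Fin (N + 1)) k).mulVec (σ ∘ v)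
  invFun v := σ.symm ∘ ((↑(A⁻¹) : Matrix (Fin (N + 1)) (Fin (N + 1)) k).mulVec v)
  left_inv v := by
    simp only
    rw [inv_mulVec]
    funext i
    simp
  right_inv v := by
    simp only
    have : σ ∘ (σ.symm ∘ ((↑(A⁻¹) : Matrix (Fin (N + 1)) (Fin (N + 1)) k).mulVec v)) =
        (↑(A⁻¹) : Matrix (Fin (N + 1)) (Fin (N + 1)) k).mulVec v := by
      funext i
      simp
    rw [this, mulVec_inv]

theorem semiPerm_mem {F : Tuple k N} {σ : k ≃ₐ[ℚ] k} {A : GL (Fin (N + 1)) k}
    (h : mapT (σ : k →+* k) F = conj A F) : (σ, semiPerm σ A) ∈ semiGrp F := by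
  refine ⟨fun v w => ?_, fun c v => ?_, fun v => ?_⟩
  · change (A : Matrix (Fin (N + 1)) (Fin (N + 1)) k).mulVec (σ ∘ (v + w)) =
      (A : Matrix (Fin (N + 1)) (Fin (N + 1)) k).mulVec (σ ∘ v) +
      (A : Matrix (Fin (N + 1)) (Fin (N + 1)) k).mulVec (σ ∘ w)
    rw [← Matrix.mulVec_add]
    congr 1
    funext i
    simp
  · change (A : Matrix (Fin (N + 1)) (Fin (N + 1)) k).mulVec (σ ∘ (c • v)) =
      σ c • (A : Matrix (Fin (N + 1)) (Fin (N + 1)) k).mulVec (σ ∘ v)
    rw [← Matrix.mulVec_smul]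
    congr 1
    funext i
    simp
  · change ev F ((A : Matrix (Fin (N + 1)) (Fin (N + 1)) k).mulVec (σ ∘ v)) =
      (A : Matrix (Fin (N + 1)) (Fin (N + 1)) k).mulVec (σ ∘ (ev F v))
    have h1 : σ ∘ (ev F v) = ev (mapT (σ : k →+* k) F) (σ ∘ v) := (ev_mapT (σ : k →+* k) F v).symm
    rw [h1, h, ev_conj, mulVec_inv]

theorem exists_scale [IsAlgClosed k] (hd : 2 ≤ d) {F : Tuple k N}
    (hF : ∀ i, (F i).IsHomogeneous d) (φ : GL (Fin (N + 1)) k) (c : kˣ) :
    ∃ A : GL (Fin (N + 1)) k, conj A F = fun i => C (c : k) * conj φ F i := by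
  have hinf : Infinite k := IsAlgClosed.instInfinite
  obtain ⟨z, hz⟩ := IsAlgClosed.exists_pow_nat_eq (c : k) (show 0 < d - 1 by omega)
  have hz0 : z ≠ 0 := by
    rintro rfl
    rw [zero_pow (by omega)] at hz
    exact c.ne_zero hz.symm
  let A : GL (Fin (N + 1)) k :=
    ⟨z • (φ : Matrix (Fin (N + 1)) (Fin (N + 1)) k),
      z⁻¹ • (↑(φ⁻¹) : Matrix (Fin (N + 1)) (Fin (N + 1)) k), by
        rw [Matrix.smul_mul, Matrix.mul_smul, Units.mul_inv, smul_smul, mul_inv_cancel₀ hz0,
          one_smul], by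
        rw [Matrix.smul_mul, Matrix.mul_smul, Units.inv_mul, smul_smul, inv_mul_cancel₀ hz0,
          one_smul]⟩
  refine ⟨A, ?_⟩
  apply ev_inj
  intro v
  rw [ev_conj]
  change (z⁻¹ • (↑(φ⁻¹) : Matrix (Fin (N + 1)) (Fin (N + 1)) k)).mulVec
    (ev F ((z • (φ : Matrix (Fin (N + 1)) (Fin (N + 1)) k)).mulVec v)) = _
  rw [Matrix.smul_mulVec, Matrix.smul_mulVec, ev_smul hF, Matrix.mulVec_smul, smul_smul]
  have h1 : z⁻¹ * z ^ d = c := by
    have : d = (d - 1) + 1 := by omega
    rw [this, pow_succ', ← mul_assoc, inv_mul_cancel₀ hz0, one_mul, hz]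
  rw [h1, ← ev_conj]
  funext i
  simp [ev]

/-- `F` and `G` are conjugate up to a scalar. -/
def IsConj (F G : Tuple k N) : Prop :=
  ∃ (φ : GL (Fin (N + 1)) k) (c : kˣ), ∀ i, G i = C (c : k) * conj φ F i

theorem range_toGal [IsAlgClosed k] (hd : 2 ≤ d) {F : Tuple k N}
    (hF : ∀ i, (F i).IsHomogeneous d) :
    ((toGal F).range : Set (k ≃ₐ[ℚ] k)) =
      {σ : k ≃ₐ[ℚ] k | IsConj F (mapT (σ : k →+* k) F)} := by
  have hinf : Infinite k := IsAlgClosed.instInfinite
  ext σ
  constructor
  · rintro ⟨g, rfl⟩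
    refine ⟨gGL F g, 1, fun i => ?_⟩
    have h1 := gGL_conj F g
    change mapT ((g.1.1 : k ≃ₐ[ℚ] k) : k →+* k) F i = _
    rw [h1]
    simp
  · rintro ⟨φ, c, h⟩
    obtain ⟨A, hA⟩ := exists_scale hd hF φ c
    have h1 : mapT (σ : k →+* k) F = conj A F := by
      rw [hA]
      funext i
      exact h i
    exact ⟨⟨(σ, semiPerm σ A), semiPerm_mem h1⟩, rfl⟩

/-- A point over an extension field specialises to a point over the algebraically closed field. -/
theorem exists_point' {k K σ : Type} [Field k] [IsAlgClosed k] [Field K] [Algebra k K] [Finite σ]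
    (x : σ → K) (q : MvPolynomial σ k) (hq : aeval x q ≠ 0) :
    ∃ y : σ → k, (∀ p : MvPolynomial σ k, aeval x p = 0 → eval y p = 0) ∧ eval y q ≠ 0 := by
  let z : Option σ → K := fun o => o.elim (aeval x q)⁻¹ x
  let J : Ideal (MvPolynomial (Option σ) k) := RingHom.ker (aeval z)
  have hJ : J ≠ ⊤ := by
    intro h
    have h1 : (1 : MvPolynomial (Option σ) k) ∈ J := by rw [h]; trivial
    rw [RingHom.mem_ker, map_one] at h1
    exact one_ne_zero h1
  obtain ⟨M, hM, hJM⟩ := Ideal.exists_le_maximal J hJ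
  obtain ⟨y, hy⟩ := isMaximal_iff_eq_vanishingIdeal_singleton.mp hM
  have hJy : ∀ p ∈ J, eval y p = 0 := by
    intro p hp
    have h1 := hJM hp
    rw [hy, mem_vanishingIdeal_singleton_iff] at h1
    rw [← coe_aeval_eq_eval]
    exact h1
  have hren : ∀ p : MvPolynomial σ k, aeval z (rename some p) = aeval x p := by
    intro p
    rw [aeval_rename]
    rfl
  refine ⟨fun i => y (some i), fun p hp => ?_, ?_⟩
  · have h1 := hJy (rename some p) (by rw [RingHom.mem_ker, hren, hp])
    rw [eval_rename] at h1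
    exact h1
  · intro h0
    have h1 := hJy (X none * rename some q - 1) (by
      rw [RingHom.mem_ker, map_sub, map_mul, hren, aeval_X, map_one]
      change (aeval x q)⁻¹ * aeval x q - 1 = 0
      rw [inv_mul_cancel₀ hq, sub_self])
    rw [map_sub, map_mul, eval_rename, map_one] at h1
    have h2 : eval (y ∘ some) q = 0 := h0
    rw [h2, mul_zero, zero_sub] at h1
    exact one_ne_zero (neg_eq_zero.mp h1)

theorem nz_mapT {k K : Type} [Field k] [IsAlgClosed k] [Field K] (e : k →+* K) {N : ℕ}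
    {F : Tuple k N} (hF : ∀ x : Fin (N + 1) → k, (∀ i, eval x (F i) = 0) → x = 0) :
    ∀ x : Fin (N + 1) → K, (∀ i, eval x (mapT e F i) = 0) → x = 0 := by
  let _ := e.toAlgebra
  intro x hx
  by_contra hne
  obtain ⟨j, hj⟩ := Function.ne_iff.mp hne
  obtain ⟨y, hy1, hy2⟩ := exists_point' x (X j : MvPolynomial (Fin (N + 1)) k) (by
    rw [aeval_X]; exact hj)
  have h1 := hF y (fun i => hy1 _ (by
    rw [← hx i, mapT, eval_map, aeval_def]; rfl))
  rw [eval_X, h1] at hy2
  exact hy2 rfl

/-- The polynomial identity expressing commutation. -/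
theorem commute_mapT [Infinite k] {K : Type} [Field K] (e : k →+* K) {F : Tuple k N}
    {A : Matrix (Fin (N + 1)) (Fin (N + 1)) k} (h : ∀ v, ev F (A.mulVec v) = A.mulVec (ev F v))
    (v : Fin (N + 1) → K) :
    ev (mapT e F) ((A.map e).mulVec v) = (A.map e).mulVec (ev (mapT e F) v) := by
  have h1 : ∀ i, bind₁ (fun l => ∑ m, C (A l m) * X m) (F i) = ∑ j, C (A i j) * F j := by
    intro i
    apply MvPolynomial.funext
    intro w
    rw [Pool.Agent.Helper819.Zar.eval_bind]
    have h2 : (fun l => eval w (∑ m, C (A l m) * X m)) = A.mulVec w := by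
      funext l
      simp [Matrix.mulVec, dotProduct]
    rw [h2]
    have h3 := congrFun (h w) i
    simp only [ev] at h3
    rw [h3]
    simp [Matrix.mulVec, dotProduct, ev]
  funext i
  have h4 : eval v (map e (bind₁ (fun l => ∑ m, C (A l m) * X m) (F i))) =
      eval v (map e (∑ j, C (A i j) * F j)) := congrArg (fun p => eval v (map e p)) (h1 i)
  rw [map_bind₁, Pool.Agent.Helper819.Zar.eval_bind] at h4
  have h2 : (fun l => eval v (map e (∑ m, C (A l m) * X m))) = (A.map e).mulVec v := by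
    funext l
    simp [Matrix.mulVec, dotProduct]
  rw [h2] at h4
  simp only [ev, mapT]
  rw [h4]
  simp [Matrix.mulVec, dotProduct, ev, mapT]

theorem continuous_ev (F : Tuple ℂ N) : Continuous (ev F) :=
  continuous_pi fun i => MvPolynomial.continuous_eval (F i)

/-- The finiteness of the kernel. -/
theorem ker_finite [IsAlgClosed k] (e : k →+* ℂ) (hd : 2 ≤ d) {F : Tuple k N}
    (hF : ∀ i, (F i).IsHomogeneous d)
    (hz : ∀ x : Fin (N + 1) → k, (∀ i, eval x (F i) = 0) → x = 0) :
    ((rep F).s.ker : Set (semiGrp F)).Finite := by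
  have hinf : Infinite k := IsAlgClosed.instInfinite
  have hfin : (autGrp (ev (mapT e F)) :
      Set ((Fin (N + 1) → ℂ) →L[ℂ] (Fin (N + 1) → ℂ))ˣ).Finite := by
    refine fin_aut hd (continuous_ev _) (fun c v => ?_) (fun v hv => ?_)
    · exact ev_smul (fun i => (hF i).map e) c v
    · exact nz_mapT e hz v (fun i => congrFun hv i)
  let Ψ : Matrix (Fin (N + 1)) (Fin (N + 1)) k →*
      ((Fin (N + 1) → ℂ) →L[ℂ] (Fin (N + 1) → ℂ)) :=
    { toFun := fun A => LinearMap.toContinuousLinearMap (Matrix.toLin' (A.map e))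
      map_one' := by
        rw [Matrix.map_one e (map_zero e) (map_one e), Matrix.toLin'_one]
        rfl
      map_mul' := fun A B => by
        rw [Matrix.map_mul, Matrix.toLin'_mul]
        rfl }
  have hΨ : ∀ A v, Ψ A v = (A.map e).mulVec v := fun A v => Matrix.toLin'_apply _ _
  have hker : ∀ g ∈ ((rep F).s.ker : Set (semiGrp F)), ∀ c : k, g.1.1 c = c := by
    intro g hg c
    exact congrArg (fun f : k ≃+* k => f c) (MonoidHom.mem_ker.1 hg)
  let f : semiGrp F → ((Fin (N + 1) → ℂ) →L[ℂ] (Fin (N + 1) → ℂ))ˣ := fun g =>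
    Units.map Ψ (gGL F g)
  refine Set.Finite.of_finite_image (f := f) (hfin.subset ?_) ?_
  · rintro _ ⟨g, hg, rfl⟩ v
    have h1 : ∀ v, ev F ((gmat F g).mulVec v) = (gmat F g).mulVec (ev F v) := by
      intro v
      have h2 : ∀ w : Fin (N + 1) → k, g.1.1 ∘ w = w := fun w => by
        funext i
        exact hker g hg _
      have h3 : ∀ w, g.1.2 w = (gmat F g).mulVec w := fun w => by
        rw [gmat_spec, h2]
      rw [← h3, ← h3, g.2.2.2]
    change ev (mapT e F) (Ψ (gmat F g) v) = Ψ (gmat F g) (ev (mapT e F) v)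
    rw [hΨ, hΨ]
    exact commute_mapT e h1 v
  · intro g hg g' hg' h
    have h1 : Ψ (gmat F g) = Ψ (gmat F g') := congrArg Units.val h
    have h2 : (gmat F g).map e = (gmat F g').map e := by
      apply Matrix.toLin'.injective
      exact LinearMap.toContinuousLinearMap.injective h1
    have h3 : gmat F g = gmat F g' := Matrix.map_injective e.injective h2
    apply Subtype.ext
    apply Prod.ext
    · ext c
      rw [hker g hg, hker g' hg']
    · ext v i
      rw [gmat_spec, gmat_spec, h3]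
      have h4 : g.1.1 ∘ v = g'.1.1 ∘ v := by
        funext i
        rw [Function.comp_apply, Function.comp_apply, hker g hg, hker g' hg']
      rw [h4]

theorem rep_good [IsAlgClosed k] [CharZero k] [Algebra.IsAlgebraic ℚ k] (e : k →+* ℂ)
    (hd : 2 ≤ d) {F : Tuple k N} (hF : ∀ i, (F i).IsHomogeneous d)
    (hz : ∀ x : Fin (N + 1) → k, (∀ i, eval x (F i) = 0) → x = 0) : (rep F).Good where
  fin := ker_finite e hd hF hz
  cont := by
    classical
    intro T
    have hinf : Infinite k := IsAlgClosed.instInfinite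
    refine ⟨(Finset.univ.biUnion fun i => (F i).support.image (fun m => coeff m (F i))) ∪
      T.biUnion (fun v => Finset.univ.image v), fun g hg => ?_⟩
    have hcoef : mapT ((g.1.1 : k ≃ₐ[ℚ] k) : k →+* k) F = conj 1 F := by
      have h0 : conj (1 : GL (Fin (N + 1)) k) F = F := by
        apply ev_inj
        intro v
        rw [ev_conj]
        simp
      rw [h0]
      funext i
      ext m
      simp only [mapT, coeff_map]
      by_cases hm : m ∈ (F i).support
      · exact hg _ (Finset.mem_union_left _ (Finset.mem_biUnion.2 ⟨i, Finset.mem_univ i,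
          Finset.mem_image_of_mem _ hm⟩))
      · rw [notMem_support_iff.1 hm, map_zero]
    let γ : semiGrp F := ⟨(g.1.1, semiPerm g.1.1 1), semiPerm_mem hcoef⟩
    refine ⟨g * γ⁻¹, ?_, fun v hv => ?_⟩
    · have h1 : (rep F).s γ = (rep F).s g := rfl
      rw [map_mul, map_inv, h1, mul_inv_cancel]
    · have h1 : (rep F).ρ γ v = v := by
        change (1 : Matrix (Fin (N + 1)) (Fin (N + 1)) k).mulVec (g.1.1 ∘ v) = v
        rw [Matrix.one_mulVec]
        funext i
        exact hg _ (Finset.mem_union_right _ (Finset.mem_biUnion.2 ⟨v, hv,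
          Finset.mem_image_of_mem _ (Finset.mem_univ i)⟩))
      have h2 : (rep F).ρ γ⁻¹ v = v := by
        conv_lhs => rw [← h1]
        rw [SRep.ρ_inv_apply]
      rw [SRep.ρ_mul_apply, h2]
  alg := by
    intro c
    have hc : minpoly ℚ c ≠ 0 := minpoly.ne_zero (Algebra.IsIntegral.isIntegral c)
    refine ((minpoly ℚ c).rootSet_finite k).subset ?_
    rintro _ ⟨g, rfl⟩
    rw [Polynomial.mem_rootSet_of_ne hc]
    change Polynomial.aeval (g.1.1 c) (minpoly ℚ c) = 0
    rw [Polynomial.aeval_algHom_apply, minpoly.aeval, map_zero]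

end

end Pool.Agent.K6.H72.FD
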