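import Pool.Agent.K6.H72.FD.Geo2

/-!
A field of definition of bounded degree over the field of moduli.
-/

open MvPolynomial

namespace Pool.Agent.K6.H72.FD

open Pool.Agent.Helper819.Dyn

noncomputable section

variable {k : Type} [Field k] [Algebra ℚ k] {N d : ℕ}

/-- The matrix whose columns are the vectors of a basis. -/
def colGL (b : Module.Basis (Fin (N + 1)) k (Fin (N + 1) → k)) : GL (Fin (N + 1)) k :=
  ⟨(Pi.basisFun k (Fin (N + 1))).toMatrix b, b.toMatrix (Pi.basisFun k (Fin (N + 1))),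
    Module.Basis.toMatrix_mul_toMatrix_flip _ _, Module.Basis.toMatrix_mul_toMatrix_flip _ _⟩

theorem colGL_mulVec (b : Module.Basis (Fin (N + 1)) k (Fin (N + 1) → k)) (w : Fin (N + 1) → k) :
    (colGL b : Matrix (Fin (N + 1)) (Fin (N + 1)) k).mulVec w = ∑ j, w j • b j := by
  funext i
  change ∑ j, (Pi.basisFun k (Fin (N + 1))).toMatrix b i j * w j = _
  simp only [Finset.sum_apply, Pi.smul_apply, smul_eq_mul, Module.Basis.toMatrix_apply,
    Pi.basisFun_repr]
  exact Finset.sum_congr rfl fun _ _ => mul_comm _ _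

/-- The diagonal matrix. -/
def diagGL (τ : Fin (N + 1) → kˣ) : GL (Fin (N + 1)) k :=
  ⟨Matrix.diagonal (fun i => (τ i : k)), Matrix.diagonal (fun i => ((τ i)⁻¹ : kˣ)), by
    rw [Matrix.diagonal_mul_diagonal]
    simp, by
    rw [Matrix.diagonal_mul_diagonal]
    simp⟩

theorem diagGL_mulVec (τ : Fin (N + 1) → kˣ) (w : Fin (N + 1) → k) :
    (diagGL τ : Matrix (Fin (N + 1)) (Fin (N + 1)) k).mulVec w = fun j => (τ j : k) * w j := by
  funext j
  exact Matrix.mulVec_diagonal _ _ _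

theorem diagGL_inv_mulVec (τ : Fin (N + 1) → kˣ) (w : Fin (N + 1) → k) :
    (↑((diagGL τ)⁻¹) : Matrix (Fin (N + 1)) (Fin (N + 1)) k).mulVec w =
      fun j => (((τ j)⁻¹ : kˣ) : k) * w j := by
  funext j
  exact Matrix.mulVec_diagonal _ _ _

theorem conj_conj [Infinite k] (A B : GL (Fin (N + 1)) k) (F : Tuple k N) :
    conj B (conj A F) = conj (A * B) F := by
  apply ev_inj
  intro v
  rw [ev_conj, ev_conj, ev_conj, mul_inv_rev, Units.val_mul, Units.val_mul,
    Matrix.mulVec_mulVec, Matrix.mulVec_mulVec]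

theorem coeff_conj_diag [Infinite k] (τ : Fin (N + 1) → kˣ) (F : Tuple k N) (i : Fin (N + 1))
    (m : Fin (N + 1) →₀ ℕ) : coeff m (conj (diagGL τ) F i) =
      (((τ i)⁻¹ : kˣ) : k) * ((∏ j, (τ j : k) ^ m j) * coeff m (F i)) := by
  have h1 : conj (diagGL τ) F = fun i => C (((τ i)⁻¹ : kˣ) : k) *
      bind₁ (fun j => C (τ j : k) * X j) (F i) := by
    apply ev_inj
    intro v
    rw [ev_conj, diagGL_mulVec, diagGL_inv_mulVec]
    funext i
    simp only [ev]
    rw [map_mul, eval_C, Pool.Agent.Helper819.Zar.eval_bind]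
    have h2 : (fun j => (τ j : k) * v j) = fun j => eval v (C (τ j : k) * X j) := by
      funext j
      simp
    rw [h2]
  rw [h1]
  simp only
  rw [coeff_C_mul, coeff_scale]

/-- The transformation rule of the coefficients in an adapted basis. -/
theorem coeff_rule [Infinite k] {F : Tuple k N}
    (b : Module.Basis (Fin (N + 1)) k (Fin (N + 1) → k)) (g : semiGrp F)
    (D : Fin (N + 1) → kˣ) (hD : ∀ j, g.1.2 (b j) = (D j : k) • b j) (i : Fin (N + 1))
    (m : Fin (N + 1) →₀ ℕ) : g.1.1 (coeff m (conj (colGL b) F i)) =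
      (((D i)⁻¹ : kˣ) : k) * ((∏ j, (D j : k) ^ m j) * coeff m (conj (colGL b) F i)) := by
  set F' := conj (colGL b) F with hF'
  have hadd : ∀ v w, g.1.2 (v + w) = g.1.2 v + g.1.2 w := g.2.1
  have hPg : ∀ w : Fin (N + 1) → k,
      g.1.2 ((colGL b : Matrix (Fin (N + 1)) (Fin (N + 1)) k).mulVec w) =
      (colGL b : Matrix (Fin (N + 1)) (Fin (N + 1)) k).mulVec
        ((diagGL D : Matrix (Fin (N + 1)) (Fin (N + 1)) k).mulVec (g.1.1 ∘ w)) := by
    intro w
    rw [colGL_mulVec, colGL_mulVec, diagGL_mulVec]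
    change (rep F).ρ g (∑ j, w j • b j) = _
    rw [map_sum]
    refine Finset.sum_congr rfl fun j _ => ?_
    change g.1.2 (w j • b j) = _
    rw [g.2.2.1, hD, smul_smul, mul_comm]
    rfl
  -- `F' ∘ (D σ) = (D σ) ∘ F'`
  have hcomm : ∀ w : Fin (N + 1) → k,
      ev F' ((diagGL D : Matrix (Fin (N + 1)) (Fin (N + 1)) k).mulVec (g.1.1 ∘ w)) =
      (diagGL D : Matrix (Fin (N + 1)) (Fin (N + 1)) k).mulVec (g.1.1 ∘ (ev F' w)) := by
    intro w
    rw [hF', ev_conj, ← hPg, g.2.2.2]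
    have h2 : ev F ((colGL b : Matrix (Fin (N + 1)) (Fin (N + 1)) k).mulVec w) =
        (colGL b : Matrix (Fin (N + 1)) (Fin (N + 1)) k).mulVec (ev F' w) := by
      rw [hF', ev_conj, mulVec_inv]
    rw [h2, hPg, inv_mulVec]
  have hpoly : mapT ((g.1.1 : k ≃ₐ[ℚ] k) : k →+* k) F' = conj (diagGL D) F' := by
    apply ev_inj
    intro x
    set w : Fin (N + 1) → k := (g.1.1).symm ∘ x with hw
    have hx : x = ((g.1.1 : k ≃ₐ[ℚ] k) : k →+* k) ∘ w := by
      funext i
      simp [hw]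
    rw [ev_conj]
    conv_lhs => rw [hx, ev_mapT]
    have h3 := hcomm w
    have h4 : (g.1.1 ∘ w : Fin (N + 1) → k) = x := by
      rw [hx]; rfl
    rw [h4] at h3
    rw [h3, inv_mulVec]
    rfl
  have h5 := congrFun hpoly i
  have h6 : coeff m (mapT ((g.1.1 : k ≃ₐ[ℚ] k) : k →+* k) F' i) = g.1.1 (coeff m (F' i)) := by
    simp [mapT, coeff_map]
  rw [← h6, h5, coeff_conj_diag]

theorem exists_field (N : ℕ) : ∃ C : ℕ, ∀ (k : Type) [Field k] [Algebra ℚ k] [IsAlgClosed k]
    [CharZero k] [Algebra.IsAlgebraic ℚ k] (_ : k →+* ℂ) (d : ℕ), 2 ≤ d → ∀ (F : Tuple k N),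
    (∀ i, (F i).IsHomogeneous d) →
    (∀ x : Fin (N + 1) → k, (∀ i, eval x (F i) = 0) → x = 0) →
    ∃ (L : IntermediateField ℚ k) (φ : GL (Fin (N + 1)) k),
      (∀ i m, coeff m (conj φ F i) ∈ L) ∧
      IntermediateField.relrank (IntermediateField.fixedField (toGal F).range) L ≤ C := by
  classical
  obtain ⟨C, hC⟩ := lines (N + 1)
  refine ⟨C, fun k _ _ _ _ _ e d hd F hF hz => ?_⟩
  have hinf : Infinite k := IsAlgClosed.instInfinite
  obtain ⟨H, -, hH1, hH2, ι, b0, hb0⟩ := hC k e (Fin (N + 1) → k) (by simp) (semiGrp F) (rep F)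
    (rep_good e hd hF hz)
  let b : Module.Basis (Fin (N + 1)) k (Fin (N + 1) → k) :=
    b0.reindex (b0.indexEquiv (Pi.basisFun k (Fin (N + 1))))
  have hb : ∀ h ∈ H, ∀ i, ∃ c : kˣ, h.1.2 (b i) = (c : k) • b i := by
    intro h hh i
    obtain ⟨c, hc⟩ := hb0 h hh ((b0.indexEquiv (Pi.basisFun k (Fin (N + 1)))).symm i)
    have hbi : b i = b0 ((b0.indexEquiv (Pi.basisFun k (Fin (N + 1)))).symm i) := by
      simp [b]
    rw [← hbi] at hc
    have hc0 : c ≠ 0 := by
      rintro rfl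
      rw [zero_smul] at hc
      apply b.ne_zero i
      rw [← (rep F).ρ_inv_apply h (b i), hc, map_zero]
    exact ⟨Units.mk0 c hc0, hc⟩
  set F' := conj (colGL b) F with hF'
  let I : Type := Σ i : Fin (N + 1), (F' i).support
  let c : I → kˣ := fun p => Units.mk0 (coeff p.2.1 (F' p.1)) (mem_support_iff.1 p.2.2)
  let w : I → Fin (N + 1) → ℤ := fun p j => (p.2.1 j : ℤ) - (if p.1 = j then 1 else 0)
  obtain ⟨τ, hτ⟩ := torus_fixed c w
  have hprod : ∀ (D : Fin (N + 1) → kˣ) (p : I), (∏ j, D j ^ w p j : kˣ) =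
      (D p.1)⁻¹ * ∏ j, D j ^ p.2.1 j := by
    intro D p
    simp only [w]
    simp_rw [zpow_sub, zpow_natCast]
    rw [Finset.prod_mul_distrib, mul_comm]
    congr 1
    rw [Finset.prod_inv_distrib]
    congr 1
    rw [Finset.prod_eq_single p.1]
    · simp
    · intro j _ hj
      rw [if_neg (Ne.symm hj), zpow_zero]
    · intro h
      exact absurd (Finset.mem_univ _) h
  refine ⟨IntermediateField.fixedField (H.map (toGal F)), colGL b * diagGL τ, ?_, ?_⟩
  · intro i m
    rw [← conj_conj, ← hF', coeff_conj_diag, IntermediateField.mem_fixedField_iff]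
    rintro _ ⟨g, hg, rfl⟩
    choose D hD using hb g hg
    by_cases hm : m ∈ (F' i).support
    · let p : I := ⟨i, m, hm⟩
      have h1 := hτ ((g.1.1 : k ≃ₐ[ℚ] k) : k ≃+* k) D (fun p => by
        rw [hprod]
        have h2 := coeff_rule b g D hD p.1 p.2.1
        rw [← hF'] at h2
        change g.1.1 (coeff p.2.1 (F' p.1)) = coeff p.2.1 (F' p.1) * _
        rw [h2]
        push_cast
        ring) p
      rw [hprod] at h1
      have h3 : ((c p * ((τ p.1)⁻¹ * ∏ j, τ j ^ p.2.1 j) : kˣ) : k) =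
          (((τ i)⁻¹ : kˣ) : k) * ((∏ j, (τ j : k) ^ m j) * coeff m (F' i)) := by
        simp only [c, p]
        push_cast
        rw [Units.val_mk0]
        ring
      rw [h3] at h1
      exact h1
    · rw [notMem_support_iff.1 hm, mul_zero, mul_zero, map_zero]
  · refine (relrank_le (toGal F) H hH1).trans ?_
    exact_mod_cast hH2

end

end Pool.Agent.K6.H72.FD
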