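import Pool.Agent.K6.H72.FD.Perm
import Pool.Agent.Y123.ST.Jor1

/-!
Jordan's theorem on finite linear groups, in the form used below.
-/

open Matrix
open scoped MatrixOrder ComplexOrder

namespace Pool.Agent.K6.H72.FD

noncomputable section

/-- Jordan's theorem over the complex numbers. -/
theorem jordan_complex (n : ℕ) : ∃ J : ℕ, ∀ (K : Type) [Group K] [Finite K]
    (ψ : K →* Matrix (Fin n) (Fin n) ℂ), ∃ B : Subgroup K, 0 < B.index ∧ B.index ≤ J ∧
      ∀ x ∈ B, ∀ y ∈ B, ψ x * ψ y = ψ y * ψ x := by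
  classical
  let E := EuclideanSpace ℂ (Fin n)
  have hcomp : IsCompact (Metric.closedBall (0 : E →L[ℂ] E) 1) := by
    have : ProperSpace (E →L[ℂ] E) := FiniteDimensional.proper ℂ _
    exact isCompact_closedBall _ _
  obtain ⟨t, -, ht, hcov⟩ := hcomp.finite_cover_balls (by norm_num : (0 : ℝ) < 1 / 8)
  refine ⟨t.ncard, fun K _ _ ψ => ?_⟩
  have := Fintype.ofFinite K
  let S : Matrix (Fin n) (Fin n) ℂ := ∑ g : K, (ψ g)ᴴ * ψ g
  have hSpos : S.PosDef := by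
    have h2 : S = 1 + ∑ g ∈ Finset.univ.erase (1 : K), (ψ g)ᴴ * ψ g := by
      show ∑ g : K, (ψ g)ᴴ * ψ g = _
      rw [← Finset.add_sum_erase _ _ (Finset.mem_univ (1 : K)), map_one, conjTranspose_one,
        Matrix.one_mul]
    rw [h2]
    exact Matrix.PosDef.one.add_posSemidef
      (Matrix.posSemidef_sum _ fun g _ => posSemidef_conjTranspose_mul_self _)
  obtain ⟨B, hB⟩ := CStarAlgebra.nonneg_iff_eq_star_mul_self.mp hSpos.posSemidef.nonneg
  have hSdet : S.det ≠ 0 := (hSpos.det_pos).ne'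
  have hBdet : IsUnit B.det := by
    rw [isUnit_iff_ne_zero]
    intro h
    apply hSdet
    rw [hB, det_mul, h, mul_zero]
  have hBB : B * B⁻¹ = 1 := mul_nonsing_inv _ hBdet
  have hBB' : B⁻¹ * B = 1 := nonsing_inv_mul _ hBdet
  have hinvS : ∀ g, (ψ g)ᴴ * S * ψ g = S := by
    intro g
    show (ψ g)ᴴ * (∑ h : K, (ψ h)ᴴ * ψ h) * ψ g = ∑ h : K, (ψ h)ᴴ * ψ h
    rw [Matrix.mul_sum, Matrix.sum_mul]
    rw [← Equiv.sum_comp (Equiv.mulRight g) (fun h : K => (ψ h)ᴴ * ψ h)]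
    refine Finset.sum_congr rfl fun h _ => ?_
    rw [Equiv.coe_mulRight, map_mul, conjTranspose_mul]
    simp only [Matrix.mul_assoc]
  let u : K →* Matrix (Fin n) (Fin n) ℂ :=
    { toFun := fun g => B * ψ g * B⁻¹
      map_one' := by rw [map_one, Matrix.mul_one, hBB]
      map_mul' := fun g h => by
        rw [map_mul]
        calc B * (ψ g * ψ h) * B⁻¹ = B * ψ g * 1 * ψ h * B⁻¹ := by noncomm_ring
          _ = B * ψ g * (B⁻¹ * B) * ψ h * B⁻¹ := by rw [hBB']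
          _ = B * ψ g * B⁻¹ * (B * ψ h * B⁻¹) := by noncomm_ring }
  have huu : ∀ g, star (u g) * u g = 1 := by
    intro g
    have h2 : (B⁻¹)ᴴ * Bᴴ = 1 := by rw [← conjTranspose_mul, hBB, conjTranspose_one]
    show (B * ψ g * B⁻¹)ᴴ * (B * ψ g * B⁻¹) = 1
    rw [conjTranspose_mul, conjTranspose_mul]
    have h3 : Bᴴ * B = S := hB.symm
    calc (B⁻¹)ᴴ * ((ψ g)ᴴ * Bᴴ) * (B * ψ g * B⁻¹)
        = (B⁻¹)ᴴ * ((ψ g)ᴴ * (Bᴴ * B) * ψ g) * B⁻¹ := by noncomm_ring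
      _ = (B⁻¹)ᴴ * (Bᴴ * B) * B⁻¹ := by rw [h3, hinvS g]
      _ = ((B⁻¹)ᴴ * Bᴴ) * (B * B⁻¹) := by noncomm_ring
      _ = 1 := by rw [h2, hBB, Matrix.one_mul]
  let φ : K →* (E →L[ℂ] E) :=
    { toFun := fun g => toEuclideanCLM (𝕜 := ℂ) (u g)
      map_one' := by rw [map_one, map_one]
      map_mul' := fun g h => by rw [map_mul, map_mul] }
  have hφinj : ∀ g h, φ g = φ h → ψ g = ψ h := by
    intro g h hgh
    have h1 : u g = u h := (toEuclideanCLM (𝕜 := ℂ)).injective hgh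
    have h2 : B⁻¹ * u g * B = B⁻¹ * u h * B := by rw [h1]
    have h3 : ∀ z, B⁻¹ * u z * B = ψ z := by
      intro z
      show B⁻¹ * (B * ψ z * B⁻¹) * B = ψ z
      calc B⁻¹ * (B * ψ z * B⁻¹) * B = (B⁻¹ * B) * ψ z * (B⁻¹ * B) := by noncomm_ring
        _ = ψ z := by rw [hBB', Matrix.one_mul, Matrix.mul_one]
    rw [h3, h3] at h2
    exact h2
  have hφs : ∀ g, star (φ g) * φ g = 1 := by
    intro g
    show star (toEuclideanCLM (𝕜 := ℂ) (u g)) * toEuclideanCLM (𝕜 := ℂ) (u g) = 1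
    rw [← map_star, ← map_mul, huu g, map_one]
  have hφinv : ∀ g, star (φ g) = φ g⁻¹ := by
    intro g
    have h2 : φ g * φ g⁻¹ = 1 := by rw [← map_mul, mul_inv_cancel, map_one]
    calc star (φ g) = star (φ g) * (φ g * φ g⁻¹) := by rw [h2, mul_one]
      _ = φ g⁻¹ := by rw [← mul_assoc, hφs g, one_mul]
  have hφU : ∀ g, φ g ∈ unitary (E →L[ℂ] E) := by
    intro g
    rw [Unitary.mem_iff]
    refine ⟨hφs g, ?_⟩
    rw [hφinv g, ← map_mul, mul_inv_cancel, map_one]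
  have hclose : ∀ x y : K, ‖φ x - 1‖ ≤ 1 / 4 → ‖φ y - 1‖ ≤ 1 / 4 → φ x * φ y = φ y * φ x := by
    intro x y hx hy
    refine Pool.Agent.Y123.ST.Jor.close_comm (G := Set.range φ) (Set.finite_range φ)
      ?_ ?_ ?_ ⟨x, rfl⟩ ⟨y, rfl⟩ hx hy
    · rintro _ ⟨g, rfl⟩
      exact hφU g
    · rintro _ ⟨g, rfl⟩ _ ⟨h, rfl⟩
      exact ⟨g * h, map_mul _ _ _⟩
    · rintro _ ⟨g, rfl⟩
      rw [hφinv g]
      exact ⟨_, rfl⟩
  let C : Subgroup K := Subgroup.closure {x | ‖φ x - 1‖ ≤ 1 / 4}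
  have hC1 : ∀ x ∈ C, ∀ y, ‖φ y - 1‖ ≤ 1 / 4 → φ x * φ y = φ y * φ x := by
    intro x hx y hy
    induction hx using Subgroup.closure_induction with
    | mem x hx => exact hclose x y hx hy
    | one => simp
    | mul a b _ _ ha hb =>
      rw [map_mul, mul_assoc, hb, ← mul_assoc, ha, mul_assoc]
    | inv a _ ha =>
      have h1 : φ a⁻¹ * φ a = 1 := by rw [← map_mul, inv_mul_cancel, map_one]
      have h2 : φ a * φ a⁻¹ = 1 := by rw [← map_mul, mul_inv_cancel, map_one]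
      calc φ a⁻¹ * φ y = φ a⁻¹ * φ y * (φ a * φ a⁻¹) := by rw [h2, mul_one]
        _ = φ a⁻¹ * (φ y * φ a) * φ a⁻¹ := by noncomm_ring
        _ = (φ a⁻¹ * φ a) * φ y * φ a⁻¹ := by rw [← ha]; noncomm_ring
        _ = φ y * φ a⁻¹ := by rw [h1, one_mul]
  have hC2 : ∀ x ∈ C, ∀ y ∈ C, φ x * φ y = φ y * φ x := by
    intro x hx y hy
    induction hy using Subgroup.closure_induction with
    | mem y hy => exact hC1 x hx y hy
    | one => simp
    | mul a b _ _ ha hb =>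
      rw [map_mul, ← mul_assoc, ha, mul_assoc, hb, ← mul_assoc]
    | inv a _ ha =>
      have h1 : φ a⁻¹ * φ a = 1 := by rw [← map_mul, inv_mul_cancel, map_one]
      have h2 : φ a * φ a⁻¹ = 1 := by rw [← map_mul, mul_inv_cancel, map_one]
      calc φ x * φ a⁻¹ = (φ a⁻¹ * φ a) * φ x * φ a⁻¹ := by rw [h1, one_mul]
        _ = φ a⁻¹ * (φ a * φ x) * φ a⁻¹ := by noncomm_ring
        _ = φ a⁻¹ * φ x * (φ a * φ a⁻¹) := by rw [← ha]; noncomm_ring
        _ = φ a⁻¹ * φ x := by rw [h2, mul_one]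
  have hb : ∀ x : K, ∃ z ∈ t, φ x ∈ Metric.ball z (1 / 8) := by
    intro x
    have h1 : φ x ∈ Metric.closedBall (0 : E →L[ℂ] E) 1 := by
      rw [mem_closedBall_zero_iff]
      have h3 := ContinuousLinearMap.norm_map_of_mem_unitary (hφU x)
      refine ContinuousLinearMap.opNorm_le_bound _ zero_le_one fun v => ?_
      rw [h3, one_mul]
    have h2 := hcov h1
    simpa using h2
  choose f hf hf' using hb
  have hidx := index_le_of_fun C t ht f hf (by
    intro g g' h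
    apply Subgroup.subset_closure
    show ‖φ (g⁻¹ * g') - 1‖ ≤ 1 / 4
    have h1 := hf' g
    have h2 := hf' g'
    rw [Metric.mem_ball, dist_eq_norm] at h1 h2
    rw [h] at h1
    have h3 : ‖φ g' - φ g‖ ≤ 1 / 4 := by
      have h4 : φ g' - φ g = (φ g' - f g') - (φ g - f g') := by abel
      rw [h4]
      refine (norm_sub_le _ _).trans ?_
      linarith
    have h4 : φ g * (φ (g⁻¹ * g') - 1) = φ g' - φ g := by
      rw [mul_sub, mul_one, ← map_mul, mul_inv_cancel_left]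
    rw [← CStarRing.norm_mem_unitary_mul (φ (g⁻¹ * g') - 1) (hφU g), h4]
    exact h3)
  refine ⟨C, hidx.1, hidx.2, fun x hx y hy => ?_⟩
  rw [← map_mul, ← map_mul]
  apply hφinj
  rw [map_mul, map_mul]
  exact hC2 x hx y hy

end

end Pool.Agent.K6.H72.FD
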