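import Pool.Agent.K6.H72.FD.CaseA

/-!
A good semilinear representation is a sum of lines after passing to a subgroup of bounded index.
-/

namespace Pool.Agent.K6.H72.FD

noncomputable section

open SRep

theorem lines (n : ℕ) : ∃ C : ℕ, ∀ (k : Type) [Field k] [IsAlgClosed k] (_ : k →+* ℂ)
    (V : Type) [AddCommGroup V] [Module k V] [FiniteDimensional k V], Module.finrank k V = n →
    ∀ (G : Type) [Group G] (R : SRep k G V), R.Good →
    ∃ H : Subgroup G, R.Open H ∧ 0 < H.index ∧ H.index ≤ C ∧
      ∃ (ι : Type) (b : Module.Basis ι k V), ∀ h ∈ H, ∀ i, ∃ c : k, R.ρ h (b i) = c • b i := by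
  classical
  induction n using Nat.strong_induction_on with
  | _ n ih =>
    rcases Nat.lt_or_ge n 2 with hn | hn
    · refine ⟨1, fun k _ _ e V _ _ _ hV G _ R hR => ⟨⊤, R.open_top, by simp, by simp,
        Fin n, Module.finBasisOfFinrankEq k V hV, fun h _ i => ?_⟩⟩
      have hn1 : n = 1 := by
        have := i.2
        omega
      subst hn1
      refine ⟨(Module.finBasisOfFinrankEq k V hV).repr
        (R.ρ h (Module.finBasisOfFinrankEq k V hV i)) i, ?_⟩
      conv_lhs => rw [← (Module.finBasisOfFinrankEq k V hV).sum_repr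
        (R.ρ h (Module.finBasisOfFinrankEq k V hV i))]
      rw [Fin.sum_univ_one]
      have : i = 0 := Subsingleton.elim _ _
      subst this
      rfl
    · obtain ⟨C0, hC0⟩ := split n
      choose C hC using ih
      let C1 : ℕ := Finset.univ.sup (fun m : Fin n => C m.1 m.2)
      have hC1 : ∀ m (hm : m < n), C m hm ≤ C1 := fun m hm =>
        Finset.le_sup (f := fun m : Fin n => C m.1 m.2) (Finset.mem_univ (⟨m, hm⟩ : Fin n))
      refine ⟨(C1 * C0) * (C1 * C0), fun k _ _ e V _ _ _ hV G _ R hR => ?_⟩
      obtain ⟨H, hH1, hH2, hH3, W1, W2, hW, hW1, hW2, hS1, hS2⟩ := hC0 k e V hV hn G R hR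
      have hsum : Module.finrank k W1 + Module.finrank k W2 = n := by
        rw [← hV]
        exact Submodule.finrank_add_eq_of_isCompl hW
      have hp1 : 0 < Module.finrank k W1 :=
        Nat.pos_of_ne_zero (fun h => hW1 (Submodule.finrank_eq_zero.1 h))
      have hp2 : 0 < Module.finrank k W2 :=
        Nat.pos_of_ne_zero (fun h => hW2 (Submodule.finrank_eq_zero.1 h))
      obtain ⟨H1, a1, a2, a3, ι1, b1, hb1⟩ := hC _ (by omega : Module.finrank k W1 < n) k e W1 rfl H
        (restr hS1) (hR.restr hH1 hS1)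
      obtain ⟨H2, c1, c2, c3, ι2, b2, hb2⟩ := hC _ (by omega : Module.finrank k W2 < n) k e W2 rfl H
        (restr hS2) (hR.restr hH1 hS2)
      have i1 : (H1.map H.subtype).index = H1.index * H.index := Subgroup.index_map_subtype _
      have i2 : (H2.map H.subtype).index = H2.index * H.index := Subgroup.index_map_subtype _
      have i1' : 0 < (H1.map H.subtype).index := by rw [i1]; exact Nat.mul_pos a2 hH2
      have i2' : 0 < (H2.map H.subtype).index := by rw [i2]; exact Nat.mul_pos c2 hH2
      refine ⟨H1.map H.subtype ⊓ H2.map H.subtype, R.open_inf (open_map hH1 hS1 a1)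
        (open_map hH1 hS2 c1), ?_, ?_, ι1 ⊕ ι2,
        (b1.prod b2).map (Submodule.prodEquivOfIsCompl W1 W2 hW), ?_⟩
      · exact Nat.pos_of_ne_zero (Subgroup.index_inf_ne_zero i1'.ne' i2'.ne')
      · refine Subgroup.index_inf_le.trans ?_
        rw [i1, i2]
        exact Nat.mul_le_mul (Nat.mul_le_mul (a3.trans (hC1 _ _)) hH3)
          (Nat.mul_le_mul (c3.trans (hC1 _ _)) hH3)
      · rintro h ⟨⟨h1, hh1, rfl⟩, ⟨h2, hh2, he⟩⟩ i
        have he' : h2 = h1 := Subtype.ext he
        subst he'
        rcases i with i | i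
        · obtain ⟨c, hc⟩ := hb1 h2 hh1 i
          refine ⟨c, ?_⟩
          have := congrArg Subtype.val hc
          simpa using this
        · obtain ⟨c, hc⟩ := hb2 h2 hh2 i
          refine ⟨c, ?_⟩
          have := congrArg Subtype.val hc
          simpa using this

end

end Pool.Agent.K6.H72.FD
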