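import Pool.Agent.K6.H72.FD.Basic

/-!
A commuting family of operators which is stable under conjugation by an open subgroup and which
contains an operator with two eigenvalues gives a stable decomposition after passing to a subgroup
of bounded index.
-/

namespace Pool.Agent.K6.H72.FD

noncomputable section

theorem index_le_of_fun {G : Type} [Group G] (H : Subgroup G) {X : Type} (S : Set X)
    (hS : S.Finite) (f : G → X) (hf : ∀ g, f g ∈ S) (h : ∀ g g', f g = f g' → g⁻¹ * g' ∈ H) :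
    0 < H.index ∧ H.index ≤ S.ncard := by
  have : Finite S := hS
  let F : G ⧸ H → S := fun q => ⟨f q.out, hf _⟩
  have hF : Function.Injective F := by
    intro q q' hq
    have h1 : f q.out = f q'.out := congrArg Subtype.val hq
    have h2 := h _ _ h1
    rw [← QuotientGroup.out_eq' q, ← QuotientGroup.out_eq' q']
    exact QuotientGroup.eq.2 h2
  have : Finite (G ⧸ H) := Finite.of_injective F hF
  constructor
  · exact Nat.card_pos
  · rw [← Nat.card_coe_set_eq]
    exact Nat.card_le_card_of_injective F hF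

variable {k : Type} [Field k] {G : Type} [Group G] {V : Type} [AddCommGroup V] [Module k V]

namespace SRep

variable (R : SRep k G V)

/-- Conjugation of an operator. -/
def conjE (g : G) (b : Module.End k V) : Module.End k V where
  toFun v := R.ρ g (b (R.ρ g⁻¹ v))
  map_add' v w := by simp
  map_smul' c v := by
    simp only [R.semi, map_smul, RingHom.id_apply]
    rw [s_apply_inv]

@[simp] theorem conjE_apply (g : G) (b : Module.End k V) (v : V) :
    R.conjE g b v = R.ρ g (b (R.ρ g⁻¹ v)) := rfl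

theorem conjE_mul (g h : G) (b : Module.End k V) :
    R.conjE (g * h) b = R.conjE g (R.conjE h b) := by
  ext v
  simp [ρ_mul_apply]

theorem conjE_one (b : Module.End k V) : R.conjE 1 b = b := by
  ext v
  simp [ρ_one_apply]

theorem conjE_inv (g : G) (b : Module.End k V) : R.conjE g⁻¹ (R.conjE g b) = b := by
  rw [← conjE_mul, inv_mul_cancel, conjE_one]

theorem conjE_ρ (g : G) (b : Module.End k V) (v : V) :
    R.conjE g b (R.ρ g v) = R.ρ g (b v) := by
  simp [ρ_inv_apply]

/-- Image of a subspace. -/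
def img (g : G) (W : Submodule k V) : Submodule k V where
  carrier := {v | R.ρ g⁻¹ v ∈ W}
  add_mem' {a b} ha hb := by
    simp only [Set.mem_setOf_eq] at *
    rw [map_add]
    exact W.add_mem ha hb
  zero_mem' := by simp
  smul_mem' c v hv := by
    simp only [Set.mem_setOf_eq] at *
    rw [R.semi]
    exact W.smul_mem _ hv

theorem mem_img (g : G) (W : Submodule k V) (v : V) : v ∈ R.img g W ↔ R.ρ g⁻¹ v ∈ W := Iff.rfl

theorem img_mul (g h : G) (W : Submodule k V) : R.img (g * h) W = R.img g (R.img h W) := by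
  ext v
  simp only [mem_img]
  rw [mul_inv_rev, ρ_mul_apply]

theorem img_one (W : Submodule k V) : R.img 1 W = W := by
  ext v
  simp [mem_img, ρ_one_apply]

theorem ρ_mem_img (g : G) (W : Submodule k V) {v : V} (hv : v ∈ W) : R.ρ g v ∈ R.img g W := by
  rw [mem_img, ρ_inv_apply]
  exact hv

theorem ρ_mem_img_iff (g : G) (W : Submodule k V) {v : V} : R.ρ g v ∈ R.img g W ↔ v ∈ W := by
  rw [mem_img, ρ_inv_apply]

theorem img_bot (g : G) : R.img g (⊥ : Submodule k V) = ⊥ := by
  ext v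
  simp only [mem_img, Submodule.mem_bot]
  constructor
  · intro h
    rw [← R.ρ_apply_inv g v, h, map_zero]
  · rintro rfl
    simp

theorem img_inj (g : G) {W W' : Submodule k V} (h : R.img g W = R.img g W') : W = W' := by
  have := congrArg (R.img g⁻¹) h
  rwa [← img_mul, ← img_mul, inv_mul_cancel, img_one, img_one] at this

theorem pow_conj (g : G) (b : Module.End k V) (μ : k) (m : ℕ) (v : V) :
    ((R.conjE g b - R.s g μ • (1 : Module.End k V)) ^ m) (R.ρ g v) =
      R.ρ g (((b - μ • (1 : Module.End k V)) ^ m) v) := by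
  induction m generalizing v with
  | zero => simp
  | succ m ih =>
    rw [pow_succ, Module.End.mul_apply, pow_succ, Module.End.mul_apply, ← ih]
    congr 1
    rw [LinearMap.sub_apply, conjE_ρ, LinearMap.sub_apply, map_sub, LinearMap.smul_apply,
      LinearMap.smul_apply, R.semi]
    simp

theorem mem_gen (g : G) {b : Module.End k V} {μ : k} {v : V}
    (hv : v ∈ b.maxGenEigenspace μ) :
    R.ρ g v ∈ (R.conjE g b).maxGenEigenspace (R.s g μ) := by
  rw [Module.End.mem_maxGenEigenspace] at hv ⊢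
  obtain ⟨m, hm⟩ := hv
  exact ⟨m, by rw [pow_conj, hm, map_zero]⟩

variable {R}

theorem open_stab [FiniteDimensional k V] {G1 : Subgroup G} (hG1 : R.Open G1)
    (W : Submodule k V) (H : Subgroup G) (hH : ∀ g ∈ G1, R.img g W = W → g ∈ H) : R.Open H := by
  classical
  obtain ⟨T, S, h⟩ := hG1
  obtain ⟨T', hT'⟩ := (IsNoetherian.noetherian W : W.FG)
  refine ⟨T ∪ T', S, fun g h1 h2 => ?_⟩
  have key : ∀ g : G, (∀ v ∈ T', R.ρ g v = v) → ∀ w ∈ W, R.ρ g w ∈ W := by
    intro g hg w hw
    rw [← hT'] at hw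
    induction hw using Submodule.span_induction with
    | mem x hx => rw [hg x hx, ← hT']; exact Submodule.subset_span hx
    | zero => simp
    | add x y _ _ hx hy => rw [map_add]; exact W.add_mem hx hy
    | smul c x _ hx => rw [R.semi]; exact W.smul_mem _ hx
  have hfix : ∀ v ∈ T', R.ρ g v = v := fun v hv => h1 v (Finset.mem_union_right _ hv)
  have hfix' : ∀ v ∈ T', R.ρ g⁻¹ v = v := by
    intro v hv
    conv_lhs => rw [← hfix v hv]
    exact R.ρ_inv_apply g v
  apply hH g (h g (fun v hv => h1 v (Finset.mem_union_left _ hv)) h2)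
  ext v
  rw [mem_img]
  constructor
  · intro hv
    have := key g hfix _ hv
    rwa [ρ_apply_inv] at this
  · intro hv
    exact key g⁻¹ hfix' _ hv

/-- The decomposition given by a commuting family. -/
theorem split_of_family [IsAlgClosed k] [FiniteDimensional k V] {G1 : Subgroup G}
    (hG1 : R.Open G1) (𝓑 : Set (Module.End k V))
    (hcomm : ∀ a ∈ 𝓑, ∀ b ∈ 𝓑, Commute a b)
    (hstab : ∀ g ∈ G1, ∀ b ∈ 𝓑, R.conjE g b ∈ 𝓑)
    {b0 : Module.End k V} (hb0 : b0 ∈ 𝓑) (hne : ∀ μ, b0.maxGenEigenspace μ ≠ ⊤) :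
    ∃ H : Subgroup G, H ≤ G1 ∧ R.Open H ∧ 0 < H.relIndex G1 ∧
      H.relIndex G1 ≤ Module.finrank k V ∧
      ∃ W1 W2 : Submodule k V, IsCompl W1 W2 ∧ W1 ≠ ⊥ ∧ W2 ≠ ⊥ ∧ R.Stable H W1 ∧
        R.Stable H W2 := by
  classical
  let f : 𝓑 → Module.End k V := fun b => b.1
  have hmaps : ∀ (i j : 𝓑) (φ : k), Set.MapsTo (f i) ((f j).maxGenEigenspace φ)
      ((f j).maxGenEigenspace φ) := fun i j φ =>
    Module.End.mapsTo_maxGenEigenspace_of_comm (hcomm j.1 j.2 i.1 i.2) φ
  let W : (𝓑 → k) → Submodule k V := fun χ => ⨅ i, (f i).maxGenEigenspace (χ i)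
  have hind : iSupIndep W := Module.End.independent_iInf_maxGenEigenspace_of_forall_mapsTo f hmaps
  have htop : ⨆ χ, W χ = ⊤ :=
    Module.End.iSup_iInf_maxGenEigenspace_eq_top_of_forall_mapsTo f hmaps
      (fun i => Module.End.iSup_maxGenEigenspace_eq_top (f i))
  have hinj := Module.End.injOn_iInf_maxGenEigenspace (R := k) (M := V) f
  have hlt : ∀ χ, W χ ≠ ⊤ := by
    intro χ h
    apply hne (χ ⟨b0, hb0⟩)
    rw [eq_top_iff, ← h]
    exact iInf_le _ (⟨b0, hb0⟩ : 𝓑)
  have himg0 : ∀ g ∈ G1, ∀ χ : 𝓑 → k, ∃ χ' : 𝓑 → k,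
      (∀ v ∈ W χ, R.ρ g v ∈ W χ') ∧ (∀ v ∈ W χ', R.ρ g⁻¹ v ∈ W χ) := by
    intro g hg χ
    refine ⟨fun b => R.s g (χ ⟨R.conjE g⁻¹ b.1, hstab _ (G1.inv_mem hg) _ b.2⟩), ?_, ?_⟩
    · intro v hv
      simp only [W, Submodule.mem_iInf] at hv ⊢
      intro b
      have := R.mem_gen g (hv ⟨R.conjE g⁻¹ b.1, hstab _ (G1.inv_mem hg) _ b.2⟩)
      have h2 : R.conjE g (f ⟨R.conjE g⁻¹ b.1, hstab _ (G1.inv_mem hg) _ b.2⟩) = f b := by
        simp only [f]
        rw [← conjE_mul, mul_inv_cancel, conjE_one]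
      rwa [h2] at this
    · intro v hv
      simp only [W, Submodule.mem_iInf] at hv ⊢
      intro b
      have := R.mem_gen g⁻¹ (hv ⟨R.conjE g b.1, hstab _ hg _ b.2⟩)
      have h2 : R.conjE g⁻¹ (f ⟨R.conjE g b.1, hstab _ hg _ b.2⟩) = f b := by
        simp only [f]
        rw [conjE_inv]
      rw [s_inv_apply] at this
      have h3 : χ ⟨R.conjE g⁻¹ (⟨R.conjE g b.1, hstab _ hg _ b.2⟩ : 𝓑).1,
          hstab _ (G1.inv_mem hg) _ (hstab _ hg _ b.2)⟩ = χ b := by
        congr 1
        ext1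
        exact conjE_inv _ _ _
      rwa [h3, h2] at this
  have himg : ∀ g ∈ G1, ∀ χ : 𝓑 → k, ∃ χ' : 𝓑 → k, R.img g (W χ) = W χ' := by
    intro g hg χ
    obtain ⟨χ', h1, h2⟩ := himg0 g hg χ
    refine ⟨χ', ?_⟩
    ext v
    rw [mem_img]
    constructor
    · intro hv
      have := h1 _ hv
      rwa [ρ_apply_inv] at this
    · exact h2 v
  have hnt : (⊤ : Submodule k V) ≠ ⊥ := by
    intro h
    apply hne 0
    rw [h, eq_bot_iff, ← h]
    exact le_top
  obtain ⟨χ1, hχ1⟩ : ∃ χ, W χ ≠ ⊥ := by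
    by_contra hcon
    push Not at hcon
    apply hnt
    rw [← htop]
    simp [hcon]
  let H : Subgroup G :=
    { carrier := {g | g ∈ G1 ∧ R.img g (W χ1) = W χ1}
      mul_mem' := by
        rintro a b ⟨ha, ha'⟩ ⟨hb, hb'⟩
        exact ⟨G1.mul_mem ha hb, by rw [img_mul, hb', ha']⟩
      one_mem' := ⟨G1.one_mem, R.img_one _⟩
      inv_mem' := by
        rintro a ⟨ha, ha'⟩
        refine ⟨G1.inv_mem ha, ?_⟩
        conv_lhs => rw [← ha']
        rw [← img_mul, inv_mul_cancel, img_one] }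
  have hHle : H ≤ G1 := fun g hg => hg.1
  have hidx := index_le_of_fun (H.subgroupOf G1) {U : Submodule k V | ∃ χ, W χ = U ∧ W χ ≠ ⊥}
    (by
      have := hind.fintypeNeBotOfFiniteDimensional
      have h2 : {U : Submodule k V | ∃ χ, W χ = U ∧ W χ ≠ ⊥} =
          Set.range (fun χ : {χ // W χ ≠ ⊥} => W χ.1) := by
        ext U
        constructor
        · rintro ⟨χ, h1, h2⟩
          exact ⟨⟨χ, h2⟩, h1⟩
        · rintro ⟨χ, rfl⟩
          exact ⟨χ.1, rfl, χ.2⟩
      rw [h2]
      exact Set.finite_range _)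
    (fun g : G1 => R.img g (W χ1))
    (by
      intro g
      obtain ⟨χ', h'⟩ := himg g g.2 χ1
      refine ⟨χ', h'.symm, ?_⟩
      rw [← h']
      intro h
      apply hχ1
      apply R.img_inj g
      rw [h, img_bot])
    (by
      intro g g' h
      rw [Subgroup.mem_subgroupOf]
      refine ⟨(g⁻¹ * g').2, ?_⟩
      have := congrArg (R.img (g⁻¹ : G1)) h
      rw [← img_mul, ← img_mul, Subgroup.coe_inv, inv_mul_cancel, img_one] at this
      simpa using this.symm)
  refine ⟨H, hHle, open_stab hG1 (W χ1) H (fun g h1 h2 => ⟨h1, h2⟩), hidx.1, ?_, W χ1,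
    ⨆ χ ≠ χ1, W χ, ⟨hind χ1, ?_⟩, hχ1, ?_, ?_, ?_⟩
  · refine hidx.2.trans ?_
    have := hind.fintypeNeBotOfFiniteDimensional
    refine le_trans ?_ hind.subtype_ne_bot_le_finrank
    have h2 : {U : Submodule k V | ∃ χ, W χ = U ∧ W χ ≠ ⊥} =
        Set.range (fun χ : {χ // W χ ≠ ⊥} => W χ.1) := by
      ext U
      constructor
      · rintro ⟨χ, h1, h2⟩
        exact ⟨⟨χ, h2⟩, h1⟩
      · rintro ⟨χ, rfl⟩
        exact ⟨χ.1, rfl, χ.2⟩
    rw [h2, ← Set.image_univ]
    refine (Set.ncard_image_le Set.finite_univ).trans ?_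
    rw [Set.ncard_univ, Nat.card_eq_fintype_card]
  · rw [codisjoint_iff, eq_top_iff, ← htop]
    apply iSup_le
    intro χ
    by_cases h : χ = χ1
    · subst h; exact le_sup_left
    · exact le_sup_of_le_right (le_iSup₂_of_le χ h le_rfl)
  · intro h
    apply hlt χ1
    have h3 : W χ1 ⊔ ⨆ χ ≠ χ1, W χ = ⊤ := by
      rw [eq_top_iff, ← htop]
      apply iSup_le
      intro χ
      by_cases h : χ = χ1
      · subst h; exact le_sup_left
      · exact le_sup_of_le_right (le_iSup₂_of_le χ h le_rfl)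
    rw [h, sup_bot_eq] at h3
    exact h3
  · rintro g ⟨-, hg⟩ w hw
    rw [← hg]
    exact R.ρ_mem_img g _ hw
  · rintro g ⟨hg1, hg⟩ w hw
    refine Submodule.iSup_induction (fun χ : 𝓑 → k => ⨆ (_ : χ ≠ χ1), W χ)
      (motive := fun w => R.ρ g w ∈ ⨆ χ ≠ χ1, W χ) hw ?_ ?_ ?_
    · intro χ x hx
      by_cases hχ : χ = χ1
      · simp only [hχ, ne_eq, not_true_eq_false, iSup_false, Submodule.mem_bot] at hx
        rw [hx, map_zero]
        exact Submodule.zero_mem _
      · simp only [ne_eq, hχ, not_false_eq_true, iSup_pos] at hx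
        by_cases hb : W χ = ⊥
        · rw [hb, Submodule.mem_bot] at hx
          rw [hx, map_zero]
          exact Submodule.zero_mem _
        obtain ⟨χ', h'⟩ := himg g hg1 χ
        have hx' : R.ρ g x ∈ W χ' := by
          rw [← h']
          exact R.ρ_mem_img g _ hx
        refine (le_iSup₂_of_le (f := fun (χ : 𝓑 → k) (_ : χ ≠ χ1) => W χ) χ' ?_ le_rfl) hx'
        rintro rfl
        apply hχ
        have h4 : W χ = W χ' := R.img_inj g (by rw [h', hg])
        exact hinj (by exact hb) (by exact hχ1) h4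
    · rw [map_zero]
      exact Submodule.zero_mem _
    · intro x y hx hy
      rw [map_add]
      exact Submodule.add_mem _ hx hy

end SRep

end

end Pool.Agent.K6.H72.FD
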